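import Pool.Agent.VPI.Los

/-!
# Ultrapowers of fields
-/

set_option autoImplicit false

open Pool.Agent.VPO

namespace Pool.Agent.VPI

variable {I : Type} (V : Ultrafilter I)

/-- the ultrapower of `F` -/
abbrev UP (F : Type) : Type := Filter.Germ (V : Filter I) F

/-- the class of a family -/
noncomputable def cl (F : Type) [Field F] : (I → F) →+* UP V F := Filter.Germ.coeRingHom (V : Filter I)

variable {V}

theorem cl_eq {F : Type} [Field F] {a b : I → F} : cl V F a = cl V F b ↔ ∀ᶠ i in (V : Filter I), a i = b i :=
  Filter.Germ.coe_eq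

theorem cl_eq_zero {F : Type} [Field F] {a : I → F} : cl V F a = 0 ↔ ∀ᶠ i in (V : Filter I), a i = 0 := by
  rw [← map_zero (cl V F), cl_eq]
  rfl

theorem cl_ne_zero {F : Type} [Field F] {a : I → F} : cl V F a ≠ 0 ↔ ∀ᶠ i in (V : Filter I), a i ≠ 0 := by
  rw [Ne, cl_eq_zero, ← Ultrafilter.eventually_not]

theorem cl_surj {F : Type} [Field F] (x : UP V F) : ∃ a, cl V F a = x := Filter.Germ.inductionOn x fun a => ⟨a, rfl⟩

/-- the ultrapower as an algebra -/
@[reducible] noncomputable def algUP (V : Ultrafilter I) (k : Type) [Field k] : Algebra k (UP V k) :=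
  ((cl V k).comp (Pi.constRingHom I k)).toAlgebra

/-- the map between ultrapowers -/
noncomputable def mapUP (V : Ultrafilter I) (k F : Type) [Field k] [Field F] [Algebra k F] : UP V k →+* UP V F where
  toFun := Filter.Germ.map (algebraMap k F)
  map_one' := by
    show Filter.Germ.map (algebraMap k F) (cl V k 1) = cl V F 1
    exact (cl_eq (V := V)).2 (Filter.Eventually.of_forall fun i => map_one (algebraMap k F))
  map_mul' := by
    intro x y
    obtain ⟨a, rfl⟩ := cl_surj x
    obtain ⟨b, rfl⟩ := cl_surj y
    rw [← map_mul]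
    exact (cl_eq (V := V) (a := fun i => algebraMap k F ((a * b) i))
      (b := (fun i => algebraMap k F (a i)) * fun i => algebraMap k F (b i))).2
      (Filter.Eventually.of_forall fun i => map_mul (algebraMap k F) _ _)
  map_zero' := by
    show Filter.Germ.map (algebraMap k F) (cl V k 0) = cl V F 0
    exact (cl_eq (V := V)).2 (Filter.Eventually.of_forall fun i => map_zero (algebraMap k F))
  map_add' := by
    intro x y
    obtain ⟨a, rfl⟩ := cl_surj x
    obtain ⟨b, rfl⟩ := cl_surj y
    rw [← map_add]
    exact (cl_eq (V := V) (a := fun i => algebraMap k F ((a + b) i))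
      (b := (fun i => algebraMap k F (a i)) + fun i => algebraMap k F (b i))).2
      (Filter.Eventually.of_forall fun i => map_add (algebraMap k F) _ _)

theorem mapUP_cl {k F : Type} [Field k] [Field F] [Algebra k F] (a : I → k) :
    mapUP V k F (cl V k a) = cl V F fun i => algebraMap k F (a i) := rfl

/-- evaluation in the ultrapower -/
theorem eval_cl {F σ : Type} [Field F] (a : I → σ → F) (p : MvPolynomial σ F) (φ : F →+* UP V F)
    (hφ : ∀ c, φ c = cl V F fun _ => c) :
    MvPolynomial.eval₂ φ (fun x => cl V F fun i => a i x) p = cl V F fun i => MvPolynomial.eval (a i) p := by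
  induction p using MvPolynomial.induction_on with
  | C c => simp [hφ]
  | add p q hp hq =>
    rw [MvPolynomial.eval₂_add, hp, hq, ← map_add]
    congr 1
    funext i
    simp
  | mul_X p x hp =>
    rw [MvPolynomial.eval₂_mul, hp, MvPolynomial.eval₂_X, ← map_mul]
    congr 1
    funext i
    simp

end Pool.Agent.VPI
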