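import Pool.Agent.VPI.PVal
import Pool.Agent.VPC.Func

/-!
# The functional, for a place (as VPC/Func)

As VPO/Extract (`exists_functional`) and VPN/LowerB (`exists_relH`), with values at `0`. `m = n - 1`. For `y : Fin m → Fin 2` let `ℓ_y (Y) = ∏ j : Fin m, (w _ (y j) 0 + w _ (y j) 1 * Y_j)` (integer
coefficients; it is `1` at `y` and `0` at the other Boolean points). As `P.card < 2 ^ m` there is `γ : (Fin m → Fin 2) → K`, not `0`, with `∑ y, γ y * ℓ_y (p.2) = 0` for `p ∈ P`.
Take `y0` by `exists_max`, so WLOG `γ y0 = 1` and all `γ y` have values `γ' y` at `0`. The polynomial `q = ∑ y, γ y * ℓ_y * ℓ_y0` has exponents at most `2` in the `Y_j`, `j < m`, and `0` in the last variable (so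
`wt b < 3 ^ m ≤ wt (one n)`); its coefficients `q_b = ∑ y, γ y * (integer)` have values `q'_b`; it vanishes at `p.2`, and `∑ y, q' (bp y) = γ' y0 = 1`.
`H (e, b) = (∏ j, w _ (β0 j) (e j)) * q_b` (see `sum_w`, `prod_w` of VPO/Extract).
-/

set_option autoImplicit false

open Finset Pool.Agent.VPO Pool.Agent.VPC

namespace Pool.Agent.VPI

variable {k K : Type} [Field k] [Field K] [Algebra k K] (V : Place k K) {n : ℕ}

theorem map_w (a c : Fin 2) : algebraMap k K (w k a c) = w K a c := by
  unfold w
  split_ifs <;> simp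

theorem map_cI {m : ℕ} (y y0 : Fin m → Fin 2) (b : Fin m → Fin 3) :
    algebraMap k K (cI k y y0 b) = cI K y y0 b := by
  unfold cI
  rw [map_sum]
  apply sum_congr rfl
  intro e _
  rw [map_sum]
  apply sum_congr rfl
  intro e' _
  split_ifs
  · rw [map_mul, map_prod, map_prod]
    simp only [map_w]
  · rw [map_zero]

/-- as `exists_relH`, with values at `0` -/
theorem exists_relV {m : ℕ} (P : Finset (Fin m → K)) (hP : P.card < 2 ^ m) :
    ∃ (f : (Fin m → Fin 3) → K) (f' : (Fin m → Fin 3) → k),
      (∀ b, V.val (f b) (f' b)) ∧ (∀ Y ∈ P, ∑ b, f b * mon Y b = 0) ∧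
      ∑ y : Fin m → Fin 2, ∑ b, f' b * mon (bp k y) b = 1 := by
  classical
  let Λ : ((Fin m → Fin 2) → K) →ₗ[K] (P → K) :=
    { toFun := fun c Y => ∑ y, c y * ∏ j, (w K (y j) 0 +
        w K (y j) 1 * (Y : Fin m → K) j)
      map_add' := by
        intro c d
        funext Y
        simp only [Pi.add_apply, add_mul, sum_add_distrib]
      map_smul' := by
        intro a c
        funext Y
        simp only [Pi.smul_apply, smul_eq_mul, RingHom.id_apply, mul_sum, mul_assoc] }
  have hker : LinearMap.ker Λ ≠ ⊥ := by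
    apply LinearMap.ker_ne_bot_of_finrank_lt
    rw [Module.finrank_fintype_fun_eq_card, Module.finrank_fintype_fun_eq_card]
    simpa using hP
  obtain ⟨c, hc, hne⟩ := Submodule.exists_mem_ne_zero_of_ne_bot hker
  have hne' : ∃ y ∈ (univ : Finset (Fin m → Fin 2)), c y ≠ 0 := by
    by_contra hcon
    push Not at hcon
    exact hne (funext fun y => hcon y (mem_univ y))
  obtain ⟨y0, -, hy0, hq⟩ := exists_max V univ c hne'
  have hq' : ∀ y, ∃ d : k, V.val (c y / c y0) d := fun y => hq y (mem_univ y)
  choose d hd using hq'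
  have hd0 : d y0 = 1 := by
    have h1 := hd y0
    rw [div_self hy0] at h1
    have h2 : V.val (1 : K) (1 : k) := by
      have := V.const (1 : k)
      rwa [map_one] at this
    exact V.unique h1 h2
  have hsum : ∀ {F : Type} [Field F] (g : (Fin m → Fin 2) → F) (Y : Fin m → F),
      ∑ b, (∑ y, g y * cI F y y0 b) * mon Y b =
        (∑ y, g y * ∏ j, (w F (y j) 0 + w F (y j) 1 * Y j)) *
          ∏ j, (w F (y0 j) 0 + w F (y0 j) 1 * Y j) := by
    intro F _ g Y
    have h1 : ∀ b, (∑ y, g y * cI F y y0 b) * mon Y b = ∑ y, g y * (cI F y y0 b * mon Y b) := by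
      intro b
      rw [sum_mul]
      apply sum_congr rfl
      intro y _
      ring
    rw [sum_congr rfl fun b _ => h1 b, sum_comm, sum_mul]
    apply sum_congr rfl
    intro y _
    rw [← mul_sum, sum_cI]
    ring
  refine ⟨fun b => ∑ y, c y / c y0 * cI K y y0 b, fun b => ∑ y, d y * cI k y y0 b, ?_, ?_, ?_⟩
  · intro b
    apply val_sum V
    intro y _
    refine V.mul (hd y) ?_
    rw [← map_cI (k := k)]
    exact V.const _
  · intro Y hY
    rw [hsum]
    have h0 : ∑ y, c y * ∏ j, (w K (y j) 0 + w K (y j) 1 * Y j) = 0 :=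
      congrFun (LinearMap.mem_ker.1 hc) ⟨Y, hY⟩
    have h1 : ∑ y, c y / c y0 * ∏ j, (w K (y j) 0 + w K (y j) 1 * Y j) =
        (∑ y, c y * ∏ j, (w K (y j) 0 + w K (y j) 1 * Y j)) / c y0 := by
      rw [sum_div]
      apply sum_congr rfl
      intro y _
      ring
    rw [h1, h0, zero_div, zero_mul]
  · have h1 : ∀ z : Fin m → Fin 2, ∑ b, (∑ y, d y * cI k y y0 b) * mon (bp k z) b =
        if z = y0 then d y0 else 0 := by
      intro z
      rw [hsum]
      simp only [prod_w]
      by_cases hz : z = y0
      · rw [if_pos hz, if_pos hz, mul_one, hz]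
        simp
      · rw [if_neg hz, if_neg hz, mul_zero]
    rw [sum_congr rfl fun z _ => h1 z, sum_ite_eq', if_pos (mem_univ _), hd0]

theorem exists_H (P : Finset ((Fin n → K) × (Fin n → K))) (hP : P.card < 2 ^ (n - 1))
    (β0 : Fin n → Fin 2) :
    ∃ (H : Ix n → K) (H' : Ix n → k), (∀ i, V.val (H i) (H' i)) ∧
      (∀ p ∈ P, ∑ i, H i * nd p i = 0) ∧
      ∀ β, ∑ i, H' i * es k β i = if β = β0 then 1 else 0 := by
  classical
  cases n with
  | zero =>
    refine ⟨fun _ => 1, fun _ => 1, fun i => ?_, ?_, ?_⟩
    · have := V.const (1 : k)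
      rwa [map_one] at this
    · intro p hp
      have h1 : P.card = 0 := by
        simpa using hP
      rw [card_eq_zero] at h1
      rw [h1] at hp
      exact absurd hp (notMem_empty p)
    · intro β
      rw [if_pos (Subsingleton.elim β β0)]
      simp [es, mon, wt]
  | succ m =>
    obtain ⟨f, f', hf, hf1, hf2⟩ := exists_relV V (m := m) (P.image fun p j => p.2 (Fin.castSucc j))
      (lt_of_le_of_lt card_image_le hP)
    refine ⟨fun i => (∏ j, w K (β0 j) (i.1 j)) * lft f i.2,
      fun i => (∏ j, w k (β0 j) (i.1 j)) * lft f' i.2, ?_, ?_, ?_⟩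
    · intro i
      apply V.mul
      · have h1 : ∏ j, w K (β0 j) (i.1 j) =
            algebraMap k K (∏ j, w k (β0 j) (i.1 j)) := by
          rw [map_prod]
          simp only [map_w]
        rw [h1]
        exact V.const _
      · unfold lft
        split_ifs
        · exact hf _
        · have := V.const (0 : k)
          rwa [map_zero] at this
    · rintro ⟨X, Y⟩ hp
      have h1 : ∑ i : Ix (m + 1), (∏ j, w K (β0 j) (i.1 j)) * lft f i.2 * nd (X, Y) i =
          (∑ e, (∏ j, w K (β0 j) (e j)) * mon X e) * ∑ b, lft f b * mon Y b := by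
        rw [sum_mul_sum, Fintype.sum_prod_type]
        apply sum_congr rfl
        intro e _
        apply sum_congr rfl
        intro b _
        unfold nd ev lft
        dsimp only
        split_ifs with h2 h3
        · ring
        · exact absurd (wt_le_one h2) h3
        · ring
        · ring
      rw [h1, sum_lft, hf1 _ (mem_image_of_mem _ hp), mul_zero]
    · intro β
      have h1 : ∑ i : Ix (m + 1), (∏ j, w k (β0 j) (i.1 j)) * lft f' i.2 * es k β i =
          (∑ e, (∏ j, w k (β0 j) (e j)) * mon (bp k β) e) *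
            ∑ b, lft f' b * ∑ y : Fin m → Fin 2, mon (bp k (ext (m + 1) y)) b := by
        rw [sum_mul_sum, Fintype.sum_prod_type]
        apply sum_congr rfl
        intro e _
        apply sum_congr rfl
        intro b _
        unfold es lft
        dsimp only
        split_ifs with h2 h3
        · show _ = _ * (_ * ∑ y : Fin (m + 1 - 1) → Fin 2, mon (bp k (ext (m + 1) y)) b)
          ring
        · exact absurd (wt_le_one h2) h3
        · ring
        · ring
      rw [h1, sum_w, prod_w]
      have h2 : ∑ b, lft f' b * ∑ y : Fin m → Fin 2, mon (bp k (ext (m + 1) y)) b = 1 := by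
        rw [← hf2]
        have h3 : ∀ b, lft f' b * ∑ y : Fin m → Fin 2, mon (bp k (ext (m + 1) y)) b =
            ∑ y : Fin m → Fin 2, lft f' b * mon (bp k (ext (m + 1) y)) b := fun b => mul_sum _ _ _
        rw [sum_congr rfl fun b _ => h3 b, sum_comm]
        apply sum_congr rfl
        intro y _
        rw [sum_lft]
        apply sum_congr rfl
        intro b _
        congr 2
        funext j
        unfold bp Pool.Agent.VPC.ext
        simp
      rw [h2, mul_one]

end Pool.Agent.VPI
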