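import Pool.Agent.VPI.PRed
import Pool.Agent.VPI.PFunc
import Pool.Agent.VPC.Low

/-!
# The lower bound for the approximative complexity, for a place (as VPC/Low)
-/

set_option autoImplicit false

open Finset Pool.Agent.VPO Pool.Agent.VPN Pool.Agent.VPC

namespace Pool.Agent.VPI

variable {K0 k K : Type} [Field K0] [Field k] [Field K] [Algebra K0 k] [Algebra k K] [Algebra K0 K]
  [IsScalarTower K0 k K] (V : Place k K) {n : ℕ}

/-- the coefficients as elements of `K` -/
def lift (K : Type) [Field K] [Algebra k K] (α : (Σ m, Ix m) → k) : (Σ m, Ix m) → K := fun i => algebraMap k K (α i)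

theorem comp_lift (α : (Σ m, Ix m) → k) {r : ℕ} {l : List (MvPolynomial (Fin n) K)}
    (h : Comp (VPO.orc α) r l) : Comp (VPO.orc (lift K α)) r l := by
  induction h with
  | nil => exact Comp.nil
  | add _ hp hq ih => exact Comp.add ih hp hq
  | sub _ hp hq ih => exact Comp.sub ih hp hq
  | mul _ hp hq ih => exact Comp.mul ih hp hq
  | oracle m a _ ha ih =>
    have e : MvPolynomial.aeval a ((VPO.orc α).poly m) = MvPolynomial.aeval a ((VPO.orc (lift K α)).poly m) := by
      refine (aeval_opoly (fun i => α ⟨m, i⟩) a).trans ?_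
      refine Eq.trans ?_ (aeval_opoly (fun i => lift K α ⟨m, i⟩) a).symm
      apply sum_congr rfl
      intro i _
      congr 1
      rw [IsScalarTower.algebraMap_apply k K]
      congr 1
      split_ifs
      · rfl
      · exact map_zero _
    rw [e]
    exact Comp.oracle (G := VPO.orc (lift K α)) m a ih ha

/-- values of elements of a field with few generators -/
theorem rk_value (s : Finset K) (Y : Set k) (hY : Y.Finite)
    (h : ∀ y ∈ Y, ∃ φ ∈ IntermediateField.adjoin K0 (s : Set K), V.val φ y) :
    rk K0 Y ≤ s.card := by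
  classical
  obtain ⟨I, hI⟩ := (Mat K0 k).exists_isBasis Y
  have hIY : I ⊆ Y := hI.subset
  have hIf : I.Finite := hY.subset hIY
  have : Fintype I := hIf.fintype
  have h1 : (Mat K0 k).eRk Y = I.encard := hI.encard_eq_eRk.symm
  have h2 : AlgebraicIndependent K0 (fun y : I => (y : k)) := AlgebraicIndependent.matroid_indep_iff.1 hI.indep
  choose φ hφ1 hφ2 using fun y : I => h y (hIY y.2)
  have h3 := card_le_of_algebraicIndependent (algebraicIndependent_of_value V hφ2 h2) s hφ1
  rw [← coe_rk hY] at h1
  rw [Set.encard_eq_coe_toFinset_card] at h1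
  have h4 : rk K0 Y = I.toFinset.card := by exact_mod_cast h1
  rw [h4, Set.toFinset_card]
  exact h3

/-- the lower bound -/
theorem lowC {α : (Σ m, Ix m) → k} (hα : ∀ m, m ≠ n → ∀ i : Ix m, ∃ z : K0, algebraMap K0 k z = α ⟨m, i⟩)
    (hind : AlgebraicIndependent K0 (cof α n)) {F : MvPolynomial (Fin n) K} {g : MvPolynomial (Fin n) k}
    (hF : ∀ β : Fin n → Fin 2, V.val (MvPolynomial.eval (bp K β) F) (MvPolynomial.eval (bp k β) g))
    (hg : ∀ β : Fin n → Fin 2, MvPolynomial.eval (bp k β) g = ∑ i, es k β i * cof α n i)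
    {r : ℕ} (hc : ComputedBy (VPO.orc α) F r) : 2 ^ n < 4 * (r + 1) ^ 2 := by
  classical
  by_contra hcon
  push Not at hcon
  obtain ⟨l, hl, hf⟩ := hc
  have hn : 0 < n := by
    rcases Nat.eq_zero_or_pos n with rfl | h
    · exfalso
      have : 1 ≤ (r + 1) ^ 2 := Nat.one_le_pow _ _ (Nat.succ_pos r)
      simp at hcon
      omega
    · exact h
  have hn2 : 2 ^ n = 2 * 2 ^ (n - 1) := by
    rw [← pow_succ', Nat.sub_add_cancel hn]
  have hT : 2 * r + 2 ≤ (univ : Finset (Fin n → Fin 2)).card := by
    rw [card_univ, Fintype.card_fun, Fintype.card_fin, Fintype.card_fin]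
    nlinarith
  obtain ⟨T, -, hTc⟩ := exists_subset_card_eq hT
  have hα' : ∀ m, m ≠ n → ∀ i : Ix m, ∃ z : K0, algebraMap K0 K z = lift K α ⟨m, i⟩ := by
    intro m hm i
    obtain ⟨z, hz⟩ := hα m hm i
    exact ⟨z, by rw [IsScalarTower.algebraMap_apply K0 k K, hz]; rfl⟩
  obtain ⟨s0, P, h0⟩ := main_ind hα' (comp_lift α hl) T
  obtain ⟨s, h1, h2, h3⟩ := h0.avail hf
  have hP : P.card < 2 ^ (n - 1) := by
    have := h2.card
    rw [hTc] at this
    nlinarith
  obtain ⟨B, φ, φ', h4, h5, h6, h7, h8⟩ := exists_reduction V (IntermediateField.adjoin K0 (s : Set K))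
    (cof (lift K α) n) P nd (fun p hp => h2.inv.rat _ ⟨p, hp, rfl⟩)
  -- the finite set of values
  let Y : Set k := (fun p : Ix n × Ix n => φ' p.1 p.2) '' ((B : Set (Ix n)) ×ˢ Set.univ) ∪
    (fun b => ∑ i, φ' b i * cof α n i) '' (B : Set (Ix n)) ∪
    (fun β => MvPolynomial.eval (bp k β) g) '' (T : Set (Fin n → Fin 2))
  have hYf : Y.Finite := by
    refine ((Set.Finite.image _ (B.finite_toSet.prod Set.finite_univ)).union (B.finite_toSet.image _)).union
      (T.finite_toSet.image _)
  have hY : ∀ y ∈ Y, ∃ ψ ∈ IntermediateField.adjoin K0 (s : Set K), V.val ψ y := by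
    rintro y ((⟨⟨b, i⟩, ⟨hb, _⟩, rfl⟩ | ⟨b, hb, rfl⟩) | ⟨β, hβ, rfl⟩)
    · exact ⟨φ b i, (h5 b hb).1 i, h7 b hb i⟩
    · refine ⟨∑ i, φ b i * cof (lift K α) n i, (h5 b hb).2, val_sum V _ _ _ fun i _ => ?_⟩
      exact V.mul (h7 b hb i) (V.const _)
    · exact ⟨_, h3 β hβ, hF β⟩
  have hrY := rk_value V s Y hYf hY
  -- the linear forms over `k`
  let S : Set (Ix n → k) := φ' '' (B : Set (Ix n)) ∪ (fun β => es k β) '' (T : Set (Fin n → Fin 2))
  have hli : LinearIndependent k (Sum.elim (fun b : B => φ' b) (fun β : T => es k (β : Fin n → Fin 2))) := by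
    rw [Fintype.linearIndependent_iff]
    intro c hc
    rw [Fintype.sum_sum_type] at hc
    simp only [Sum.elim_inl, Sum.elim_inr] at hc
    have hT0 : ∀ β0 : T, c (Sum.inr β0) = 0 := by
      intro β0
      obtain ⟨H, H', hH1, hH2, hH3⟩ := exists_H V P hP (β0 : Fin n → Fin 2)
      have hz : ∀ b ∈ B, ∑ i, H' i * φ' b i = 0 := by
        intro b hb
        have e1 : ∑ i, H i * φ b i = 0 := sum_zero_of_span H (by
          rintro v ⟨p, hp, rfl⟩
          exact hH2 p hp) (h6 b hb)
        have e2 : V.val (∑ i, H i * φ b i) (∑ i, H' i * φ' b i) :=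
          val_sum V _ _ _ fun i _ => V.mul (hH1 i) (h7 b hb i)
        rw [e1] at e2
        have e3 := V.const (0 : k)
        rw [map_zero] at e3
        exact V.unique e2 e3
      have e := congrArg (fun v : Ix n → k => ∑ i, H' i * v i) hc
      simp only [Pi.add_apply, Pi.zero_apply, mul_zero, sum_const_zero, mul_add, sum_add_distrib,
        Finset.sum_apply, Pi.smul_apply, smul_eq_mul] at e
      have e1 : ∑ i, H' i * ∑ b : B, c (Sum.inl b) * φ' b i = 0 := by
        simp only [mul_sum]
        rw [sum_comm]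
        apply sum_eq_zero
        intro b _
        have : ∑ i, H' i * (c (Sum.inl b) * φ' b i) = c (Sum.inl b) * ∑ i, H' i * φ' b i := by
          rw [mul_sum]
          apply sum_congr rfl
          intro i _
          ring
        rw [this, hz b b.2, mul_zero]
      have e2 : ∑ i, H' i * ∑ β : T, c (Sum.inr β) * es k (β : Fin n → Fin 2) i = c (Sum.inr β0) := by
        simp only [mul_sum]
        rw [sum_comm, sum_eq_single β0]
        · have : ∑ i, H' i * (c (Sum.inr β0) * es k (β0 : Fin n → Fin 2) i) =
              c (Sum.inr β0) * ∑ i, H' i * es k (β0 : Fin n → Fin 2) i := by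
            rw [mul_sum]
            apply sum_congr rfl
            intro i _
            ring
          rw [this, hH3, if_pos rfl, mul_one]
        · intro β _ hβ
          have : ∑ i, H' i * (c (Sum.inr β) * es k (β : Fin n → Fin 2) i) =
              c (Sum.inr β) * ∑ i, H' i * es k (β : Fin n → Fin 2) i := by
            rw [mul_sum]
            apply sum_congr rfl
            intro i _
            ring
          rw [this, hH3, if_neg (fun h => hβ (Subtype.ext h)), mul_zero]
        · intro h
          exact absurd (mem_univ _) h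
      rw [e1, e2, zero_add] at e
      exact e
    rintro (b | β)
    · have e := congrFun hc (b : Ix n)
      simp only [Pi.add_apply, Pi.zero_apply, Finset.sum_apply, Pi.smul_apply, smul_eq_mul] at e
      rw [sum_eq_zero (s := (univ : Finset T)) (fun β _ => by rw [hT0 β, zero_mul]), add_zero,
        sum_eq_single b] at e
      · rw [h8 b b.2 b b.2, if_pos rfl, mul_one] at e
        exact e
      · intro b' _ hb'
        rw [h8 b' b'.2 b b.2, if_neg (fun h => hb' (Subtype.ext h)), mul_zero]
      · intro h
        exact absurd (mem_univ _) h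
    · exact hT0 β
  have hrS : B.card + T.card ≤ Module.finrank k (Submodule.span k S) := by
    have e := finrank_span_eq_card hli
    have e2 : Set.range (Sum.elim (fun b : B => φ' b) (fun β : T => es k (β : Fin n → Fin 2))) = S := by
      rw [Set.Sum.elim_range]
      congr 1
      · ext v
        constructor
        · rintro ⟨b, rfl⟩
          exact ⟨b, b.2, rfl⟩
        · rintro ⟨b, hb, rfl⟩
          exact ⟨⟨b, hb⟩, rfl⟩
      · ext v
        constructor
        · rintro ⟨b, rfl⟩
          exact ⟨b, b.2, rfl⟩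
        · rintro ⟨b, hb, rfl⟩
          exact ⟨⟨b, hb⟩, rfl⟩
    rw [e2, Fintype.card_sum, Fintype.card_coe, Fintype.card_coe] at e
    exact e.ge
  obtain ⟨J, -, hJ2, hJ3⟩ := exists_J S univ
  have hJ4 : J.card + (B.card + T.card) ≤ Fintype.card (Ix n) := by
    refine (Nat.add_le_add_left hrS _).trans (hJ3.trans ((Submodule.finrank_le _).trans ?_))
    rw [Module.finrank_fintype_fun_eq_card]
  -- all coefficients are in the field generated by `Y` and the coefficients with indices in `J`
  let E2 := IntermediateField.adjoin K0 (Y ∪ ((J.image (cof α n) : Finset k) : Set k))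
  have hYE : ∀ y ∈ Y, y ∈ E2 := fun y hy => IntermediateField.subset_adjoin _ _ (Or.inl hy)
  have hrat : ∀ v ∈ S ∪ (fun i => Pi.single i 1) '' (J : Set (Ix n)), RatV E2 (cof α n) v := by
    rintro v ((⟨b, hb, rfl⟩ | ⟨β, hβ, rfl⟩) | ⟨j, hj, rfl⟩)
    · exact ⟨fun i => hYE _ (Or.inl (Or.inl ⟨(b, i), ⟨hb, trivial⟩, rfl⟩)), hYE _ (Or.inl (Or.inr ⟨b, hb, rfl⟩))⟩
    · refine ⟨fun i => ?_, ?_⟩
      · show es k β i ∈ E2
        unfold es
        split_ifs
        · exact mul_mem (mon_mem (bp_mem _ _) _) (sum_mem fun y _ => mon_mem (bp_mem _ _) _)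
        · exact zero_mem _
      · have e : MvPolynomial.eval (bp k β) g ∈ E2 := hYE _ (Or.inr ⟨β, hβ, rfl⟩)
        rw [hg β] at e
        exact e
    · refine ⟨fun i => ?_, ?_⟩
      · show (Pi.single j (1 : k) : Ix n → k) i ∈ E2
        rcases eq_or_ne i j with rfl | hij
        · rw [Pi.single_eq_same]
          exact one_mem _
        · rw [Pi.single_eq_of_ne hij]
          exact zero_mem _
      · show ∑ i, (Pi.single j (1 : k) : Ix n → k) i * cof α n i ∈ E2
        rw [sum_eq_single j]
        · rw [Pi.single_eq_same, one_mul]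
          refine IntermediateField.subset_adjoin _ _ (Or.inr ?_)
          rw [mem_coe]
          exact mem_image_of_mem _ hj
        · intro i _ hi
          rw [Pi.single_eq_of_ne hi, zero_mul]
        · intro h
          exact absurd (mem_univ _) h
  have hall : ∀ i, cof α n i ∈ E2 := by
    intro i
    have e := (descent hrat (v := Pi.single i 1) (by
      intro j
      rcases eq_or_ne j i with rfl | hij
      · rw [Pi.single_eq_same]
        exact one_mem _
      · rw [Pi.single_eq_of_ne hij]
        exact zero_mem _) (hJ2 i (mem_univ _))).2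
    rw [sum_eq_single i] at e
    · rwa [Pi.single_eq_same, one_mul] at e
    · intro j _ hj
      rw [Pi.single_eq_of_ne hj, zero_mul]
    · intro h
      exact absurd (mem_univ _) h
  have hr1 : rk K0 (Set.range (cof α n)) ≤ rk K0 (Y ∪ ((J.image (cof α n) : Finset k) : Set k)) := by
    refine rk_le_of_subset_clF (Set.finite_range _) (hYf.union (Finset.finite_toSet _)) ?_
    rintro _ ⟨i, rfl⟩
    exact adjoin_le_clF _ (hall i)
  have hr2 := rk_union_le (K0 := K0) hYf (J.image (cof α n))
  have hr3 : rk K0 (Set.range (cof α n)) = Fintype.card (Ix n) := by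
    have e1 : (Mat K0 k).Indep (Set.range (cof α n)) := hind.coe_range
    have e2 := e1.eRk_eq_encard
    rw [← coe_rk (Set.finite_range _), ← Set.image_univ, hind.injective.encard_image, Set.encard_univ,
      ENat.card_eq_coe_fintype_card] at e2
    rw [← Set.image_univ]
    exact_mod_cast e2
  have hr4 : (J.image (cof α n)).card ≤ J.card := card_image_le
  have h9 := h2.inv.card
  omega

end Pool.Agent.VPI
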