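import Pool.Agent.VPN.Rec

/-!
# [VPI-RANK] tests for the independence of a level, and the rank inequality

`Dat m` are the indices of the coefficients `α` of the levels below `m` and of the coefficients `u` of the levels up to
`m`. A test of level `m` is a polynomial in the unknowns `Ind m` whose coefficients are polynomials in the data; it is
passed if it is the zero polynomial at the data or does not vanish at the coefficients `α ⟨m, ·⟩`.

`rank_of_pass`: if all tests of level `m` are passed, then `i ↦ α ⟨m, i⟩` is algebraically independent over the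
subalgebra `A0 = range (aeval (dat α u m))` (a polynomial over `A0` lifts to a test), hence over its fraction field
`adjoin k (Dm α u m ∪ Um u m)` (all the values `α ⟨j, i⟩`, `j < m`, `u j ξ`, `j ≤ m`, are in `A0`; note that `Dm` and `Um` contain only
such values; `AlgebraicIndependent.extendScalars`). With a basis `Y' ⊆ Dm ∪ Um` of the matroid (`Matroid.exists_isBasis`)
`Y' ∪ {α ⟨m, i⟩ | Frm m i}` is independent (`AlgebraicIndependent.sumElim`, `AlgebraicIndependent.matroid_indep_iff`), and contained in `Dm α u (m + 1) ∪ Um u m`, see `Dm_succ`.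
Compare `exists_new`, `exists_gen` in `VPN/Rec` and `coe_rk`, `rk_mono` in `VPN/LowerE`.
-/

set_option autoImplicit false

open MvPolynomial Pool.Agent.VPO Pool.Agent.VPN

namespace Pool.Agent.VPI

/-- the indices of the data for level `m` -/
abbrev Dat (m : ℕ) : Type :=
  {x : Σ j, Ind j // x.1 < m} ⊕ {y : Σ j, (Fin (W j) → Fin (W j + 1)) // y.1 ≤ m}

variable {k k2 : Type} [Field k] [Field k2] [Algebra k k2]

/-- the data for level `m` -/
def dat (α : (Σ m, Ind m) → k2) (u : ∀ m, (Fin (W m) → Fin (W m + 1)) → k2) (m : ℕ) : Dat m → k2 :=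
  Sum.elim (fun x => α x.1) fun y => u y.1.1 y.1.2

/-- the tests of level `m` -/
abbrev Test (k : Type) [Field k] (m : ℕ) : Type := MvPolynomial (Ind m) (MvPolynomial (Dat m) k)

/-- the polynomial of a test at the data -/
noncomputable def spec (α : (Σ m, Ind m) → k2) (u : ∀ m, (Fin (W m) → Fin (W m + 1)) → k2) {m : ℕ} (Q : Test k m) :
    MvPolynomial (Ind m) k2 :=
  map ((aeval (dat α u m) : MvPolynomial (Dat m) k →ₐ[k] k2) : MvPolynomial (Dat m) k →+* k2) Q

/-- the test is passed -/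
def Pass (α : (Σ m, Ind m) → k2) (u : ∀ m, (Fin (W m) → Fin (W m + 1)) → k2) {m : ℕ} (Q : Test k m) : Prop :=
  spec α u Q ≠ 0 → eval (fun i => α ⟨m, i⟩) (spec α u Q) ≠ 0

/-- the algebra of the data -/
noncomputable def A0 (k : Type) {k2 : Type} [Field k] [Field k2] [Algebra k k2] (α : (Σ m, Ind m) → k2)
    (u : ∀ m, (Fin (W m) → Fin (W m + 1)) → k2) (m : ℕ) : Subalgebra k k2 :=
  (aeval (dat α u m) : MvPolynomial (Dat m) k →ₐ[k] k2).range

theorem algebraicIndependent_of_pass (α : (Σ m, Ind m) → k2) (u : ∀ m, (Fin (W m) → Fin (W m + 1)) → k2) (m : ℕ)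
    (h : ∀ Q : Test k m, Pass α u Q) : AlgebraicIndependent (A0 k α u m) fun i : Ind m => α ⟨m, i⟩ := by
  rw [algebraicIndependent_iff]
  intro p hp
  by_contra hp0
  let f : MvPolynomial (Dat m) k →+* A0 k α u m :=
    (aeval (dat α u m) : MvPolynomial (Dat m) k →ₐ[k] k2).rangeRestrict.toRingHom
  have hsurj : Function.Surjective f := AlgHom.rangeRestrict_surjective _
  obtain ⟨Q, hQ⟩ := MvPolynomial.map_surjective f hsurj p
  have h1 : spec α u Q = map (algebraMap (A0 k α u m) k2) p := by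
    rw [← hQ, map_map]
    rfl
  have hinj : Function.Injective (algebraMap (A0 k α u m) k2) := Subtype.val_injective
  refine h Q ?_ ?_
  · rw [h1]
    intro h2
    exact hp0 (MvPolynomial.map_injective _ hinj (h2.trans (map_zero _).symm))
  · rw [h1, eval_map]
    exact hp

theorem mem_A0 (α : (Σ m, Ind m) → k2) (u : ∀ m, (Fin (W m) → Fin (W m + 1)) → k2) {m : ℕ} {y : k2}
    (hy : y ∈ Dm α u m ∪ Um u m) : y ∈ A0 k α u m := by
  rcases hy with ⟨j, hj, ⟨ξ, hy⟩ | ⟨i, _, hy⟩⟩ | ⟨ξ, hy⟩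
  · exact ⟨X (Sum.inr ⟨⟨j, ξ⟩, hj.le⟩), (aeval_X _ _).trans hy⟩
  · exact ⟨X (Sum.inl ⟨⟨j, i⟩, hj⟩), (aeval_X _ _).trans hy⟩
  · exact ⟨X (Sum.inr ⟨⟨m, ξ⟩, le_rfl⟩), (aeval_X _ _).trans hy⟩

theorem rank_of_pass (α : (Σ m, Ind m) → k2) (u : ∀ m, (Fin (W m) → Fin (W m + 1)) → k2) (m : ℕ)
    (h : ∀ Q : Test k m, Pass α u Q) :
    rk k (Dm α u m ∪ Um u m) + Nat.card {i : Ind m // Frm m i} ≤ rk k (Dm α u (m + 1)) := by
  classical
  obtain ⟨Y, hY⟩ := (Mat k k2).exists_isBasis (Dm α u m ∪ Um u m) (fun _ _ => Set.mem_univ _)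
  have hfin : (Dm α u m ∪ Um u m).Finite := (Dm_finite α u m).union (Um_finite u m)
  have hYfin : Y.Finite := hfin.subset hY.subset
  have h1 : AlgebraicIndependent k (Subtype.val : Y → k2) := (AlgebraicIndependent.matroid_indep_iff).1 hY.indep
  have h2 : AlgebraicIndependent (A0 k α u m) fun i : {i : Ind m // Frm m i} => α ⟨m, i.1⟩ :=
    (algebraicIndependent_of_pass α u m h).comp _ Subtype.val_injective
  have h3 : AlgebraicIndependent k
      (Sum.elim (fun i : {i : Ind m // Frm m i} => α ⟨m, i.1⟩) (Subtype.val : Y → k2)) := by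
    refine h1.sumElim_of_tower (S := A0 k α u m) ?_ h2
    rintro _ ⟨y, rfl⟩
    exact ⟨⟨y.1, mem_A0 α u (hY.subset y.2)⟩, rfl⟩
  have h4 : (Mat k k2).Indep
      (Set.range (Sum.elim (fun i : {i : Ind m // Frm m i} => α ⟨m, i.1⟩) (Subtype.val : Y → k2))) := by
    rw [AlgebraicIndependent.matroid_indep_iff]
    exact h3.coe_range
  have h5 := h4.eRk_eq_encard
  have h6 : (Set.range (Sum.elim (fun i : {i : Ind m // Frm m i} => α ⟨m, i.1⟩) (Subtype.val : Y → k2))) ⊆
      Dm α u (m + 1) := by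
    rw [Dm_succ]
    rintro _ ⟨i | y, rfl⟩
    · exact Or.inr ⟨i.1, i.2, rfl⟩
    · exact Or.inl (hY.subset y.2)
  have h7 := (Mat k k2).eRk_mono h6
  rw [h5, ← coe_rk (Dm_finite α u (m + 1))] at h7
  have : Finite Y := hYfin
  have h8 : (Set.range (Sum.elim (fun i : {i : Ind m // Frm m i} => α ⟨m, i.1⟩) (Subtype.val : Y → k2))).encard =
      ((Nat.card {i : Ind m // Frm m i} + Nat.card Y : ℕ) : ℕ∞) := by
    rw [← Set.image_univ, h3.injective.encard_image, Set.encard_univ, ENat.card_eq_coe_natCard, Nat.card_sum]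
  have h9 : rk k (Dm α u m ∪ Um u m) = Nat.card Y := by
    have h10 := hY.encard_eq_eRk
    rw [← coe_rk hfin, Set.encard, ENat.card_eq_coe_natCard] at h10
    exact_mod_cast h10.symm
  rw [h8] at h7
  have h11 : Nat.card {i : Ind m // Frm m i} + Nat.card Y ≤ rk k (Dm α u (m + 1)) := by exact_mod_cast h7
  omega

end Pool.Agent.VPI
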