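import Pool.Agent.VPI.Germ
import Pool.Agent.VPI.Rank
import Pool.Agent.VPN.LowerF

/-!
# Finitely many tests suffice for the lower bound at a level
-/

set_option autoImplicit false

open Pool.Agent.VPO Pool.Agent.VPN

namespace Pool.Agent.VPI

variable {k : Type} [Field k]

/-! ### The tests in the ultrapower -/

section

variable {I : Type} {V : Ultrafilter I} (α : I → (Σ m, Ind m) → k) (u : I → ∀ m, (Fin (W m) → Fin (W m + 1)) → k)

/-- the coefficients in the ultrapower -/
noncomputable def ua (V : Ultrafilter I) : (Σ m, Ind m) → UP V k := fun x => cl V k fun i => α i x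

/-- the coefficients in the ultrapower -/
noncomputable def uu (V : Ultrafilter I) : ∀ m, (Fin (W m) → Fin (W m + 1)) → UP V k := fun m ξ => cl V k fun i => u i m ξ

theorem aeval_dat (m : ℕ) (c : MvPolynomial (Dat m) k) :
    letI := algUP V k
    MvPolynomial.aeval (dat (ua α V) (uu u V) m) c = cl V k fun i => MvPolynomial.aeval (dat (α i) (u i) m) c := by
  letI := algUP V k
  have h1 := eval_cl (V := V) (fun i => dat (α i) (u i) m) c (algebraMap k (UP V k)) (fun _ => rfl)
  have h2 : (fun x => cl V k fun i => dat (α i) (u i) m x) = dat (ua α V) (uu u V) m := by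
    funext x
    rcases x with x | x
    · rfl
    · rfl
  rw [h2] at h1
  exact h1

theorem eval_spec (m : ℕ) (Q : Test k m) :
    letI := algUP V k
    MvPolynomial.eval (fun i => ua α V ⟨m, i⟩) (spec (ua α V) (uu u V) Q) =
      cl V k fun i => MvPolynomial.eval (fun j => α i ⟨m, j⟩) (spec (α i) (u i) Q) := by
  letI := algUP V k
  induction Q using MvPolynomial.induction_on with
  | C c =>
    simp only [spec, MvPolynomial.map_C, MvPolynomial.eval_C]
    exact aeval_dat α u m c
  | add p q hp hq =>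
    simp only [spec, map_add] at hp hq ⊢
    rw [hp, hq, ← map_add]
    rfl
  | mul_X p x hp =>
    simp only [spec, map_mul, MvPolynomial.map_X, MvPolynomial.eval_X] at hp ⊢
    rw [hp, ua, ← map_mul]
    rfl

theorem pass_up {m : ℕ} (Q : Test k m) (h : ∀ᶠ i in (V : Filter I), Pass (α i) (u i) Q) :
    letI := algUP V k
    Pass (ua α V) (uu u V) Q := by
  letI := algUP V k
  intro hne
  rw [eval_spec, cl_ne_zero]
  obtain ⟨ν, hν⟩ := MvPolynomial.ne_zero_iff.1 hne
  have h1 : MvPolynomial.coeff ν (spec (ua α V) (uu u V) Q) =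
      cl V k fun i => MvPolynomial.coeff ν (spec (α i) (u i) Q) := by
    unfold spec
    rw [MvPolynomial.coeff_map]
    refine (aeval_dat α u m _).trans ?_
    rfl
  rw [h1, cl_ne_zero] at hν
  filter_upwards [h, hν] with i hi hi'
  exact hi (MvPolynomial.ne_zero_iff.2 ⟨ν, hi'⟩)

/-! ### The oracle and the family in the ultrapower -/

theorem map_qpoly {A B : Type} [CommRing A] [CommRing B] (φ : A →+* B) {m : ℕ} (c : Ind m → A) :
    MvPolynomial.map φ (qpoly c) = qpoly fun i => φ (c i) := by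
  unfold qpoly
  rw [map_sum]
  apply Finset.sum_congr rfl
  intro i _
  rw [map_mul, MvPolynomial.map_C, map_me]
  simp only [MvPolynomial.map_X]

theorem rel_orc (m : ℕ) : Rel V (cl V k) (MvPolynomial.rename (emb m) (qpoly (cc (ua α V) (uu u V) m)))
    fun i => MvPolynomial.rename (emb m) (qpoly (cc (α i) (u i) m)) := by
  refine ⟨MvPolynomial.rename (emb m) (qpoly fun j i => cc (α i) (u i) m j), ?_, Filter.Eventually.of_forall fun i => ?_⟩
  · have e : (fun j => cl V k fun i => cc (α i) (u i) m j) = cc (ua α V) (uu u V) m := by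
      funext j
      rcases j with ⟨ξ, b⟩ | j
      · unfold cc
        dsimp only
        split_ifs
        · rfl
        · rfl
        · exact map_zero (cl V k)
      · rfl
    rw [MvPolynomial.map_rename, map_qpoly, e]
  · rw [MvPolynomial.map_rename, map_qpoly]
    rfl

/-- the sum of the generic polynomials -/
noncomputable def hsum {A : Type} [CommRing A] (n : ℕ) (c : IH n → A) : MvPolynomial (Fin n) A :=
  ∑ i : IH n, MvPolynomial.C (c i * ∑ y : Fin n → Fin 2, mon (fun j => ((y j : ℕ) : A)) i.2) *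
      mon (fun j => (MvPolynomial.X j : MvPolynomial (Fin n) A)) i.1

theorem map_hsum {A B : Type} [CommRing A] [CommRing B] (φ : A →+* B) (n : ℕ) (c : IH n → A) :
    MvPolynomial.map φ (hsum n c) = hsum n fun i => φ (c i) := by
  unfold hsum
  rw [map_sum]
  apply Finset.sum_congr rfl
  intro i _
  rw [map_mul, MvPolynomial.map_C, map_mul, map_sum, map_mon (MvPolynomial.map φ)]
  simp only [MvPolynomial.map_X, map_mon φ, map_natCast]

theorem rel_fam (n : ℕ) : Rel V (cl V k) (bsum (hpoly (ua α V) n)) fun i => bsum (hpoly (α i) n) := by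
  refine ⟨hsum n fun j i => α i ⟨n, Sum.inr j⟩, ?_, Filter.Eventually.of_forall fun i => ?_⟩
  · exact (map_hsum _ n _).trans (bsum_hpoly (ua α V) n).symm
  · exact (map_hsum _ n _).trans (bsum_hpoly (α i) n).symm

end

/-- finitely many tests of the levels from `n` on suffice for the lower bound for the `n`-th polynomial -/
theorem exists_tests (k : Type) [Field k] (n : ℕ) : ∃ S : Finset (Σ m, Test k m), (∀ t ∈ S, n ≤ t.1) ∧
    ∀ (α : (Σ m, Ind m) → k) (u : ∀ m, (Fin (W m) → Fin (W m + 1)) → k), (∀ t ∈ S, Pass α u t.2) →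
      2 ^ n < 2 * (L (orc α u) ((fam α).poly n) + 1) ^ 2 := by
  classical
  by_contra hcon
  push Not at hcon
  let I : Type := Finset (Σ m, Test k m)
  have h0 : ∀ S : I, ∃ (α : (Σ m, Ind m) → k) (u : ∀ m, (Fin (W m) → Fin (W m + 1)) → k),
      (∀ t ∈ S, n ≤ t.1 → Pass α u t.2) ∧ 2 * (L (orc α u) ((fam α).poly n) + 1) ^ 2 ≤ 2 ^ n := by
    intro S
    obtain ⟨α, u, h1, h2⟩ := hcon (S.filter fun t => n ≤ t.1) (fun t ht => (Finset.mem_filter.1 ht).2)
    exact ⟨α, u, fun t ht hn => h1 t (Finset.mem_filter.2 ⟨ht, hn⟩), h2⟩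
  choose α u h1 h2 using h0
  let V : Ultrafilter I := Ultrafilter.of Filter.atTop
  have hV : ∀ t : Σ m, Test k m, ∀ᶠ S in (V : Filter I), t ∈ S := by
    intro t
    refine Filter.Eventually.filter_mono (Ultrafilter.of_le Filter.atTop) ?_
    filter_upwards [Filter.eventually_ge_atTop ({t} : Finset (Σ m, Test k m))] with S hS
    exact hS (Finset.mem_singleton_self t)
  letI := algUP V k
  have hrk : ∀ m, n ≤ m → rk k (Dm (ua α V) (uu u V) m ∪ Um (uu u V) m) + Nat.card {i : Ind m // Frm m i} ≤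
      rk k (Dm (ua α V) (uu u V) (m + 1)) := by
    intro m hm
    refine rank_of_pass (ua α V) (uu u V) m fun Q => pass_up α u Q ?_
    filter_upwards [hV ⟨m, Q⟩] with S hS
    exact h1 S ⟨m, Q⟩ hS hm
  have hlow := lower_rank (α := ua α V) (u := uu u V) n hrk
  have h3 : ∀ᶠ S in (V : Filter I), ∃ r : Fin (2 ^ n + 1), (r : ℕ) = L (orc (α S) (u S)) ((fam (α S)).poly n) := by
    refine Filter.Eventually.of_forall fun S => ⟨⟨L (orc (α S) (u S)) ((fam (α S)).poly n), ?_⟩, rfl⟩
    have := h2 S
    nlinarith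
  obtain ⟨r, hr⟩ := Ultrafilter.eventually_exists_iff.1 h3
  obtain ⟨S0, hS0⟩ := hr.exists
  have h4 : 2 * ((r : ℕ) + 1) ^ 2 ≤ 2 ^ n := by
    rw [hS0]
    exact h2 S0
  have h5 : ComputedBy (orc (ua α V) (uu u V)) ((fam (ua α V)).poly n) (r : ℕ) := by
    refine los_computed (I := I) (V := V) (mk := cl V k) (mkF := cl V k) (fun a b h => cl_eq.2 h) (fun a => rfl) NV le_NV
      (fun S m => (orc (α S) (u S)).poly m) (fun m => (orc (ua α V) (uu u V)).poly m) (fun m => rel_orc α u m)
      (orc (ua α V) (uu u V)).vars_bdd (fun S => (orc (α S) (u S)).deg_bdd) (orc (ua α V) (uu u V)).deg_bdd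
      (r : ℕ) (fun S => (fam (α S)).poly n) _ (rel_fam α n) ?_
    filter_upwards [hr] with S hS
    have h6 := computedBy_L (orc (α S) (u S)) ((fam (α S)).poly n)
    rw [← hS] at h6
    exact h6
  have h6 := L_le h5
  have h7 : 2 * (L (orc (ua α V) (uu u V)) ((fam (ua α V)).poly n) + 1) ^ 2 ≤ 2 * ((r : ℕ) + 1) ^ 2 :=
    Nat.mul_le_mul_left _ (Nat.pow_le_pow_left (Nat.succ_le_succ h6) 2)
  omega

end Pool.Agent.VPI
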