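import Pool.Agent.VPE.Final
import Pool.Agent.VPI.Tests

/-!
# The recursive choice of the coefficients over an infinite field
-/

set_option autoImplicit false

open Pool.Agent.VPO Pool.Agent.VPN

namespace Pool.Agent.VPI

variable {k : Type} [Field k]

theorem exists_avoid [Infinite k] {σ : Type} {T : Set (MvPolynomial σ k)} (hT : T.Finite) (h : ∀ p ∈ T, p ≠ 0) :
    ∃ a : σ → k, ∀ p ∈ T, MvPolynomial.eval a p ≠ 0 := by
  by_contra hcon
  push Not at hcon
  have h1 : (∏ p ∈ hT.toFinset, p) ≠ 0 := Finset.prod_ne_zero_iff.2 fun p hp => h p (hT.mem_toFinset.1 hp)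
  apply h1
  apply MvPolynomial.funext
  intro a
  obtain ⟨p, hp, h0⟩ := hcon a
  rw [map_prod, map_zero]
  exact Finset.prod_eq_zero (hT.mem_toFinset.2 hp) h0

theorem pass_congr {α α' : (Σ m, Ind m) → k} {u u' : ∀ m, (Fin (W m) → Fin (W m + 1)) → k} {m : ℕ} (Q : Test k m)
    (h1 : ∀ j ≤ m, ∀ i, α ⟨j, i⟩ = α' ⟨j, i⟩) (h2 : ∀ j ≤ m, u j = u' j) (h : Pass α u Q) : Pass α' u' Q := by
  have e1 : dat α u m = dat α' u' m := by
    funext x
    rcases x with ⟨⟨j, i⟩, hj⟩ | ⟨⟨j, i⟩, hj⟩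
    · exact h1 j (le_of_lt hj) i
    · exact congrFun (h2 j hj) i
  have e2 : (fun i => α ⟨m, i⟩) = fun i => α' ⟨m, i⟩ := funext fun i => h1 m le_rfl i
  unfold Pass spec at h ⊢
  rw [e1, e2] at h
  exact h

/-- The property `P m G v` for the coefficients `v` of level `m` can be obtained for every oracle `G`, and depends
only on the levels below `m` of `G`. Finitely many tests are to be passed at every level. -/
theorem exists_seq_tests [Infinite k] (S : ℕ → Finset (Σ m, Test k m)) (hS : ∀ n, ∀ t ∈ S n, n ≤ t.1)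
    (P : ∀ m : ℕ, PFamily k → ((Fin (W m) → Fin (W m + 1)) → k) → Prop)
    (hP : ∀ (m : ℕ) (α : (Σ m, Ind m) → k) (u : ∀ m, (Fin (W m) → Fin (W m + 1)) → k), ∃ v, P m (orc α u) v)
    (hc : ∀ (m : ℕ) (α α' : (Σ m, Ind m) → k) (u u' : ∀ m, (Fin (W m) → Fin (W m + 1)) → k),
      (∀ j < m, ∀ i, α ⟨j, i⟩ = α' ⟨j, i⟩) → (∀ j < m, u j = u' j) → ∀ v, P m (orc α u) v → P m (orc α' u') v) :
    ∃ (α : (Σ m, Ind m) → k) (u : ∀ m, (Fin (W m) → Fin (W m + 1)) → k),
      (∀ m, P m (orc α u) (u m)) ∧ ∀ n, ∀ t ∈ S n, Pass α u t.2 := by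
  classical
  let B : ℕ → Type := fun m => (Ind m → k) × ((Fin (W m) → Fin (W m + 1)) → k)
  let al : ∀ m, (∀ i, i < m → B i) → (Σ m, Ind m) → k := fun m prev i => if h : i.1 < m then (prev i.1 h).1 i.2 else 0
  let ul : ∀ m, (∀ i, i < m → B i) → ∀ j, (Fin (W j) → Fin (W j + 1)) → k :=
    fun m prev j => if h : j < m then (prev j h).2 else 0
  let ext : ∀ m, (∀ i, i < m → B i) → B m → ∀ i, i < m + 1 → B i := fun m prev g i hi =>
    if h : i < m then prev i h else cast (congrArg B (by omega : m = i)) g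
  have hext : ∀ m (prev : ∀ i, i < m → B i) (g : B m), ext m prev g m (Nat.lt_succ_self m) = g := by
    intro m prev g
    simp only [ext, lt_irrefl, dite_false]
    rfl
  obtain ⟨β, hβ⟩ := VPE.exists_seq (α := B)
    (fun m prev g => P m (orc (al m prev) (ul m prev)) g.2 ∧
      ∀ n ≤ m, ∀ Q : Test k m, (⟨m, Q⟩ : Σ m, Test k m) ∈ S n →
        Pass (al (m + 1) (ext m prev g)) (ul (m + 1) (ext m prev g)) Q)
    (by
      intro m prev
      obtain ⟨v, hv⟩ := hP m (al m prev) (ul m prev)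
      let sp : Test k m → MvPolynomial (Ind m) k := fun Q =>
        spec (al (m + 1) (ext m prev (0, v))) (ul (m + 1) (ext m prev (0, v))) Q
      have hfin : {Q : Test k m | ∃ n ≤ m, (⟨m, Q⟩ : Σ m, Test k m) ∈ S n}.Finite := by
        refine (Set.Finite.preimage (f := fun Q : Test k m => (⟨m, Q⟩ : Σ m, Test k m)) sigma_mk_injective.injOn
          ((Finset.range (m + 1)).biUnion S).finite_toSet).subset ?_
        rintro Q ⟨n, hn, hQ⟩
        exact Finset.mem_coe.2 (Finset.mem_biUnion.2 ⟨n, Finset.mem_range.2 (Nat.lt_succ_of_le hn), hQ⟩)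
      obtain ⟨a, ha⟩ := exists_avoid (T := {p | p ∈ sp '' {Q : Test k m | ∃ n ≤ m, (⟨m, Q⟩ : Σ m, Test k m) ∈ S n} ∧ p ≠ 0})
        ((hfin.image sp).subset fun p hp => hp.1) (fun p hp => hp.2)
      refine ⟨(a, v), hv, fun n hn Q hQ => ?_⟩
      have e1 : spec (al (m + 1) (ext m prev (a, v))) (ul (m + 1) (ext m prev (a, v))) Q = sp Q := by
        have e : dat (al (m + 1) (ext m prev (a, v))) (ul (m + 1) (ext m prev (a, v))) m =
            dat (al (m + 1) (ext m prev (0, v))) (ul (m + 1) (ext m prev (0, v))) m := by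
          funext x
          rcases x with ⟨⟨j, i⟩, hj⟩ | ⟨⟨j, i⟩, hj⟩
          · have hj' : j < m := hj
            have hj1 : j < m + 1 := by omega
            simp only [dat, Sum.elim_inl, al, ext, hj', hj1, dite_true]
          · have hj1 : j < m + 1 := Nat.lt_succ_of_le hj
            rcases Nat.lt_or_eq_of_le (show j ≤ m from hj) with hj' | hj'
            · simp only [dat, Sum.elim_inr, ul, ext, hj', hj1, dite_true]
            · subst hj'
              simp only [dat, Sum.elim_inr, ul, hj1, dite_true, hext]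
        simp only [sp, spec, e]
      have e2 : (fun i => al (m + 1) (ext m prev (a, v)) ⟨m, i⟩) = a := by
        funext i
        simp only [al, Nat.lt_succ_self, dite_true, hext]
      intro hne
      rw [e1] at hne ⊢
      rw [e2]
      exact ha _ ⟨⟨Q, ⟨n, hn, hQ⟩, rfl⟩, hne⟩)
  let α : (Σ m, Ind m) → k := fun i => (β i.1).1 i.2
  let u : ∀ m, (Fin (W m) → Fin (W m + 1)) → k := fun m => (β m).2
  have h1 : ∀ m, ∀ j < m, ∀ i, al m (fun i _ => β i) ⟨j, i⟩ = α ⟨j, i⟩ := by
    intro m j hj i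
    exact dif_pos hj
  have h2 : ∀ m, ∀ j < m, ul m (fun i _ => β i) j = u j := by
    intro m j hj
    exact dif_pos hj
  refine ⟨α, u, fun m => hc m _ _ _ _ (h1 m) (h2 m) _ (hβ m).1, ?_⟩
  rintro n ⟨m, Q⟩ hQ
  have h3 := (hβ m).2 n (hS n _ hQ) Q hQ
  have e : ext m (fun i _ => β i) (β m) = fun i _ => β i := by
    funext i hi
    simp only [ext]
    split_ifs with h
    · rfl
    · have h' : i = m := by omega
      subst h'
      rfl
  rw [e] at h3
  exact pass_congr Q (fun j hj i => h1 (m + 1) j (Nat.lt_succ_of_le hj) i) (fun j hj => h2 (m + 1) j (Nat.lt_succ_of_le hj)) h3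

end Pool.Agent.VPI
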