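import Pool.Agent.VPE.Final
import Pool.Agent.VPI.Germ
import Pool.Agent.VPI.PLow
import Pool.Agent.VPI.RecI
import Pool.Agent.VPC.Fam

/-!
# The generic oracle over an infinite field

For every `n` finitely many polynomials in all the coefficients of the oracle suffice for the two lower bounds at `n`: the
coefficients of the levels from `n` on are only to be chosen such that those of these polynomials which are not the zero
polynomial after the insertion of the coefficients of the levels below `n` do not vanish.
-/

set_option autoImplicit false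

open Pool.Agent.VPO

namespace Pool.Agent.VPI

variable {k : Type} [Field k]

/-- all coefficients of the oracle -/
abbrev Co : Type := Σ m, Ix m

/-- insertion of the coefficients of the levels below `n` -/
noncomputable def pe (n : ℕ) (α : Co → k) (Q : MvPolynomial Co k) : MvPolynomial Co k :=
  MvPolynomial.aeval (fun x : Co => if x.1 < n then MvPolynomial.C (α x) else MvPolynomial.X x) Q

/-- the test `Q` is passed at `n` -/
def PassC (n : ℕ) (α : Co → k) (Q : MvPolynomial Co k) : Prop := pe n α Q ≠ 0 → MvPolynomial.eval α Q ≠ 0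

theorem pe_congr {n : ℕ} {α α' : Co → k} (h : ∀ x : Co, x.1 < n → α x = α' x) (Q : MvPolynomial Co k) :
    pe n α Q = pe n α' Q := by
  unfold pe
  have e : (fun x : Co => if x.1 < n then (MvPolynomial.C (α x) : MvPolynomial Co k) else MvPolynomial.X x) =
      fun x : Co => if x.1 < n then MvPolynomial.C (α' x) else MvPolynomial.X x := by
    funext x
    split_ifs with hx
    · rw [h x hx]
    · rfl
  rw [e]

theorem eval_pe (n : ℕ) (α b : Co → k) (Q : MvPolynomial Co k) :
    MvPolynomial.eval b (pe n α Q) = MvPolynomial.eval (fun x => if x.1 < n then α x else b x) Q := by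
  unfold pe
  induction Q using MvPolynomial.induction_on with
  | C c => simp
  | add p q hp hq => rw [map_add, map_add, map_add, hp, hq]
  | mul_X p x hp =>
    rw [map_mul, map_mul, map_mul, hp, MvPolynomial.aeval_X, MvPolynomial.eval_X]
    congr 1
    split_ifs
    · exact MvPolynomial.eval_C _
    · exact MvPolynomial.eval_X _

/-- the coefficients can be chosen level by level such that all tests are passed -/
theorem exists_seqC [Infinite k] (S : ℕ → Finset (MvPolynomial Co k)) : ∃ α : Co → k, ∀ n, ∀ Q ∈ S n, PassC n α Q := by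
  classical
  let B : ℕ → Type := fun m => Ix m → k
  let al : ∀ m, (∀ i, i < m → B i) → Co → k := fun m prev x => if h : x.1 < m then prev x.1 h x.2 else 0
  let ext : ∀ m, (∀ i, i < m → B i) → B m → ∀ i, i < m + 1 → B i := fun m prev g i hi =>
    if h : i < m then prev i h else cast (congrArg B (by omega : m = i)) g
  have hext : ∀ m (prev : ∀ i, i < m → B i) (g : B m), ext m prev g m (Nat.lt_succ_self m) = g := by
    intro m prev g
    simp only [ext, lt_irrefl, dite_false]
    rfl
  obtain ⟨β, hβ⟩ := VPE.exists_seq (α := B)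
    (fun m prev g => ∀ n ≤ m, ∀ Q ∈ S n, pe m (al m prev) Q ≠ 0 → pe (m + 1) (al (m + 1) (ext m prev g)) Q ≠ 0)
    (by
      intro m prev
      obtain ⟨b, hb⟩ := exists_avoid
        (T := {p | p ∈ (pe m (al m prev)) '' (((Finset.range (m + 1)).biUnion S : Finset _) : Set (MvPolynomial Co k)) ∧ p ≠ 0})
        (((Finset.finite_toSet _).image _).subset fun p hp => hp.1) (fun p hp => hp.2)
      refine ⟨fun i => b ⟨m, i⟩, fun n hn Q hQ hne h0 => ?_⟩
      have h1 := hb (pe m (al m prev) Q) ⟨⟨Q, Finset.mem_coe.2
        (Finset.mem_biUnion.2 ⟨n, Finset.mem_range.2 (Nat.lt_succ_of_le hn), hQ⟩), rfl⟩, hne⟩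
      apply h1
      have h2 : MvPolynomial.eval b (pe (m + 1) (al (m + 1) (ext m prev fun i => b ⟨m, i⟩)) Q) = 0 := by
        rw [h0, map_zero]
      rw [eval_pe] at h2 ⊢
      rw [← h2]
      congr 2
      funext x
      obtain ⟨j, i⟩ := x
      rcases lt_trichotomy j m with hj | hj | hj
      · have hj' : j < m + 1 := by omega
        simp only [al, ext, hj, hj', if_true, dite_true]
      · subst hj
        simp only [al, lt_irrefl, if_false, Nat.lt_succ_self, if_true, dite_true, hext]
      · have hj1 : ¬ j < m := by omega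
        have hj2 : ¬ j < m + 1 := by omega
        simp only [hj1, hj2, if_false])
  let α : Co → k := fun x => β x.1 x.2
  have h1 : ∀ m, ∀ x : Co, x.1 < m → al m (fun i _ => β i) x = α x := by
    intro m x hx
    exact dif_pos hx
  have e : ∀ m, ext m (fun i _ => β i) (β m) = fun i _ => β i := by
    intro m
    funext i hi
    simp only [ext]
    split_ifs with h
    · rfl
    · have h' : i = m := by omega
      subst h'
      rfl
  refine ⟨α, fun n Q hQ hne => ?_⟩
  have h2 : ∀ m, n ≤ m → pe m α Q ≠ 0 := by
    intro m hm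
    induction m, hm using Nat.le_induction with
    | base => exact hne
    | succ m hm ih =>
      have h3 := hβ m n hm Q hQ
      rw [e m, pe_congr (h1 m) Q, pe_congr (h1 (m + 1)) Q] at h3
      exact h3 ih
  obtain ⟨M, hM⟩ : ∃ M, ∀ x ∈ Q.vars, x.1 < M := by
    refine ⟨Q.vars.sup (fun x => x.1) + 1, fun x hx => ?_⟩
    exact Nat.lt_succ_of_le (Finset.le_sup (f := fun x : Co => x.1) hx)
  have h3 := h2 (max n M) (le_max_left _ _)
  intro h0
  apply h3
  have h4 : pe (max n M) α Q = MvPolynomial.C (MvPolynomial.eval α Q) := by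
    unfold pe
    have h5 : MvPolynomial.aeval (fun x : Co => (MvPolynomial.C (α x) : MvPolynomial Co k)) Q =
        MvPolynomial.C (MvPolynomial.eval α Q) := by
      clear h0 h3 h2 hM hne hQ
      induction Q using MvPolynomial.induction_on with
      | C c => simp [MvPolynomial.algebraMap_eq]
      | add p q hp hq => rw [map_add, map_add, hp, hq, map_add]
      | mul_X p x hp => rw [map_mul, map_mul, hp, MvPolynomial.aeval_X, MvPolynomial.eval_X, map_mul]
    rw [← h5]
    refine MvPolynomial.eval₂Hom_congr' rfl ?_ rfl
    intro x hx _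
    rw [if_pos (lt_of_lt_of_le (hM x hx) (le_max_right _ _))]
  rw [h4, h0, map_zero]

/-! ### The place of the ultrapower -/

section

variable {I : Type} (V : Ultrafilter I)

/-- the ultrapower of `RatFunc k` as an algebra over the ultrapower of `k` -/
@[reducible] noncomputable def algRF (k : Type) [Field k] : Algebra (UP V k) (UP V (RatFunc k)) :=
  (mapUP V k (RatFunc k)).toAlgebra

theorem cl_div {F : Type} [Field F] (a b : I → F) (hb : cl V F b ≠ 0) :
    cl V F (fun i => a i / b i) = cl V F a / cl V F b := by
  rw [eq_div_iff hb, ← map_mul, cl_eq]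
  filter_upwards [cl_ne_zero.1 hb] with i hi
  exact div_mul_cancel₀ _ hi

/-- the value at `0` almost everywhere -/
noncomputable def placeUP (k : Type) [Field k] :
    letI := algRF V k
    Place (UP V k) (UP V (RatFunc k)) :=
  letI := algRF V k
  { val := fun x a => ∃ φ c, cl V (RatFunc k) φ = x ∧ cl V k c = a ∧ ∀ᶠ i in (V : Filter I), HasValueAtZero (φ i) (c i)
    const := by
      intro c
      obtain ⟨c, rfl⟩ := cl_surj c
      exact ⟨fun i => algebraMap k (RatFunc k) (c i), c, rfl, rfl, Filter.Eventually.of_forall fun i => VPC.val_const _⟩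
    add := by
      rintro _ _ _ _ ⟨φ, c, rfl, rfl, h⟩ ⟨φ', c', rfl, rfl, h'⟩
      refine ⟨φ + φ', c + c', map_add _ _ _, map_add _ _ _, ?_⟩
      filter_upwards [h, h'] with i hi hi'
      exact VPE.HasValueAtZero.add hi hi'
    mul := by
      rintro _ _ _ _ ⟨φ, c, rfl, rfl, h⟩ ⟨φ', c', rfl, rfl, h'⟩
      refine ⟨φ * φ', c * c', map_mul _ _ _, map_mul _ _ _, ?_⟩
      filter_upwards [h, h'] with i hi hi'
      exact VPE.HasValueAtZero.mul hi hi'
    unique := by
      rintro _ _ _ ⟨φ, c, rfl, rfl, h⟩ ⟨φ', c', h1, rfl, h'⟩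
      rw [cl_eq]
      filter_upwards [h, h', cl_eq.1 h1] with i hi hi' h2
      rw [h2] at hi'
      exact VPE.HasValueAtZero.unique hi hi'
    total := by
      classical
      intro x y hy
      obtain ⟨φ, rfl⟩ := cl_surj x
      obtain ⟨ψ, rfl⟩ := cl_surj y
      have h1 : ∀ᶠ i in (V : Filter I), (∃ c : k, HasValueAtZero (φ i / ψ i) c) ∨
          (φ i ≠ 0 ∧ ∃ c : k, HasValueAtZero (ψ i / φ i) c) := by
        filter_upwards [cl_ne_zero.1 hy] with i hi
        exact VPC.val_total (φ i) (ψ i) hi
      rcases Ultrafilter.eventually_or.1 h1 with h | h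
      · left
        refine ⟨cl V k fun i => if h : ∃ c : k, HasValueAtZero (φ i / ψ i) c then h.choose else 0,
          fun i => φ i / ψ i, _, cl_div V φ ψ hy, rfl, ?_⟩
        filter_upwards [h] with i hi
        rw [dif_pos hi]
        exact hi.choose_spec
      · right
        have hx : cl V (RatFunc k) φ ≠ 0 := by
          rw [cl_ne_zero]
          filter_upwards [h] with i hi
          exact hi.1
        refine ⟨hx, cl V k fun i => if h : ∃ c : k, HasValueAtZero (ψ i / φ i) c then h.choose else 0,
          fun i => ψ i / φ i, _, cl_div V ψ φ hx, rfl, ?_⟩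
        filter_upwards [h] with i hi
        rw [dif_pos hi.2]
        exact hi.2.choose_spec }

end

end Pool.Agent.VPI
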