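import Pool.Agent.VPI.ChainI

/-!
# Finitely many tests for the generic oracle, and the theorem over an infinite field
-/

set_option autoImplicit false

open Pool.Agent.VPO

namespace Pool.Agent.VPI

variable {k : Type} [Field k]

section

variable {I : Type} {V : Ultrafilter I} (α : I → Co → k)

/-- the coefficients in the ultrapower -/
noncomputable def uc (V : Ultrafilter I) : Co → UP V k := fun x => cl V k fun i => α i x

/-- insertion of all coefficients except those of level `n` -/
noncomputable def pn (n : ℕ) (α : Co → k) (Q : MvPolynomial Co k) : MvPolynomial Co k :=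
  MvPolynomial.aeval (fun x : Co => if x.1 = n then MvPolynomial.X x else MvPolynomial.C (α x)) Q

theorem pn_pe (n : ℕ) (α : Co → k) (Q : MvPolynomial Co k) : pn n α (pe n α Q) = pn n α Q := by
  unfold pe
  induction Q using MvPolynomial.induction_on with
  | C c => rw [MvPolynomial.aeval_C, MvPolynomial.algebraMap_eq]
  | add p q hp hq =>
    unfold pn at hp hq ⊢
    rw [map_add, map_add, map_add, hp, hq]
  | mul_X p x hp =>
    unfold pn at hp ⊢
    rw [map_mul, map_mul, map_mul, hp, MvPolynomial.aeval_X]
    congr 1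
    split_ifs with h
    · rw [MvPolynomial.aeval_C, MvPolynomial.aeval_X, if_neg (by omega), MvPolynomial.algebraMap_eq]
    · rfl

theorem eval_uc (Q : MvPolynomial Co k) :
    letI := algUP V k
    MvPolynomial.aeval (uc α V) Q = cl V k fun i => MvPolynomial.eval (α i) Q := by
  letI := algUP V k
  exact eval_cl (V := V) (fun i => α i) Q (algebraMap k (UP V k)) (fun _ => rfl)

/-- if all tests are passed almost everywhere, the coefficients of level `n` are independent of all the others -/
theorem indep_up (n : ℕ) (h : ∀ Q : MvPolynomial Co k, ∀ᶠ i in (V : Filter I), PassC n (α i) Q) :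
    letI := algUP V k
    AlgebraicIndependent (IntermediateField.adjoin k (uc α V '' {x | x.1 ≠ n})) (cof (uc α V) n) := by
  letI := algUP V k
  classical
  rw [IntermediateField.algebraicIndependent_adjoin_iff, algebraicIndependent_iff]
  intro p hp
  by_contra hne
  obtain ⟨ν0, hν0⟩ := MvPolynomial.ne_zero_iff.1 hne
  let D : Set Co := {x | x.1 ≠ n}
  have hlift : ∀ a : Algebra.adjoin k (uc α V '' {x | x.1 ≠ n}), ∃ q : MvPolynomial D k,
      MvPolynomial.aeval (fun x : D => uc α V x) q = (a : UP V k) := by
    intro a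
    have h1 : (a : UP V k) ∈ Algebra.adjoin k (Set.range fun x : D => uc α V x) := by
      have h2 : (Set.range fun x : D => uc α V x) = uc α V '' {x | x.1 ≠ n} := by
        rw [Set.image_eq_range]
      rw [h2]
      exact a.2
    rw [Algebra.adjoin_range_eq_range_aeval] at h1
    exact h1
  choose q hq using hlift
  let e : Ix n → Co := fun i => ⟨n, i⟩
  have he : Function.Injective e := sigma_mk_injective
  let Q : MvPolynomial Co k := ∑ ν ∈ p.support, MvPolynomial.rename (Subtype.val : D → Co) (q (MvPolynomial.coeff ν p)) *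
    MvPolynomial.monomial (ν.mapDomain e) 1
  have hQ0 : MvPolynomial.aeval (uc α V) Q = 0 := by
    rw [← hp]
    conv_rhs => rw [MvPolynomial.aeval_def, MvPolynomial.eval₂_eq']
    show MvPolynomial.aeval (uc α V) (∑ ν ∈ p.support, _) = _
    rw [map_sum]
    apply Finset.sum_congr rfl
    intro ν _
    rw [map_mul, MvPolynomial.aeval_rename, MvPolynomial.aeval_monomial, map_one, one_mul]
    have e1 : MvPolynomial.aeval (uc α V ∘ (Subtype.val : D → Co)) (q (MvPolynomial.coeff ν p)) = _ :=
      hq (MvPolynomial.coeff ν p)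
    rw [e1]
    congr 1
    rw [Finsupp.prod_mapDomain_index_inj he, Finsupp.prod_fintype _ _ fun i => pow_zero _]
  rw [eval_uc, cl_eq_zero] at hQ0
  have h1 : ((MvPolynomial.coeff ν0 p : Algebra.adjoin k (uc α V '' {x | x.1 ≠ n})) : UP V k) ≠ 0 :=
    fun h0 => hν0 (Subtype.ext h0)
  rw [← hq, show (fun x : D => uc α V x) = fun x : D => cl V k fun i => α i x from rfl] at h1
  have h2 : MvPolynomial.aeval (fun x : D => cl V k fun i => α i x) (q (MvPolynomial.coeff ν0 p)) =
      cl V k fun i => MvPolynomial.eval (fun x : D => α i x) (q (MvPolynomial.coeff ν0 p)) :=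
    eval_cl (V := V) (fun i (x : D) => α i x) (q (MvPolynomial.coeff ν0 p)) (algebraMap k (UP V k)) (fun _ => rfl)
  rw [h2, cl_ne_zero] at h1
  obtain ⟨i, hi1, hi2, hi3⟩ := (hQ0.and (h1.and (h Q))).exists
  refine hi3 ?_ hi1
  intro h0
  apply hi2
  have h3 : pn n (α i) Q = 0 := by
    rw [← pn_pe, h0]
    exact map_zero _
  have h4 : pn n (α i) Q = ∑ ν ∈ p.support, MvPolynomial.monomial (ν.mapDomain e)
      (MvPolynomial.eval (fun x : D => α i x) (q (MvPolynomial.coeff ν p))) := by
    show MvPolynomial.aeval _ (∑ ν ∈ p.support, _) = _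
    rw [map_sum]
    apply Finset.sum_congr rfl
    intro ν _
    have e1 : MvPolynomial.aeval (fun x : Co => if x.1 = n then (MvPolynomial.X x : MvPolynomial Co k)
        else MvPolynomial.C (α i x)) (MvPolynomial.rename (Subtype.val : D → Co) (q (MvPolynomial.coeff ν p))) =
        MvPolynomial.C (MvPolynomial.eval (fun x : D => α i x) (q (MvPolynomial.coeff ν p))) := by
      rw [MvPolynomial.aeval_rename]
      generalize q (MvPolynomial.coeff ν p) = r
      induction r using MvPolynomial.induction_on with
      | C c => simp [MvPolynomial.algebraMap_eq]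
      | add p q hp hq => rw [map_add, map_add, hp, hq, map_add]
      | mul_X p x hp =>
        rw [map_mul, map_mul, hp, MvPolynomial.aeval_X, MvPolynomial.eval_X, map_mul]
        congr 1
        exact if_neg x.2
    have e2 : MvPolynomial.aeval (fun x : Co => if x.1 = n then (MvPolynomial.X x : MvPolynomial Co k)
        else MvPolynomial.C (α i x)) (MvPolynomial.monomial (ν.mapDomain e) (1 : k)) =
        MvPolynomial.monomial (ν.mapDomain e) 1 := by
      rw [MvPolynomial.aeval_monomial, map_one, one_mul, MvPolynomial.monomial_eq, MvPolynomial.C_1, one_mul,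
        Finsupp.prod_mapDomain_index_inj he, Finsupp.prod_mapDomain_index_inj he]
      apply Finsupp.prod_congr
      intro x _
      rw [if_pos rfl]
    rw [map_mul, e1, e2, MvPolynomial.C_mul_monomial, mul_one]
  rw [h4] at h3
  have h5 := congrArg (MvPolynomial.coeff (ν0.mapDomain e)) h3
  rw [MvPolynomial.coeff_sum, MvPolynomial.coeff_zero, Finset.sum_eq_single ν0] at h5
  · rw [MvPolynomial.coeff_monomial, if_pos rfl] at h5
    exact h5
  · intro ν _ hν
    rw [MvPolynomial.coeff_monomial, if_neg]
    intro h6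
    exact hν (Finsupp.mapDomain_injective he h6)
  · intro h6
    exact absurd (MvPolynomial.mem_support_iff.2 hν0) h6

theorem mem_base (n m : ℕ) (hm : m ≠ n) (i : Ix m) :
    letI := algUP V k
    ∃ z : IntermediateField.adjoin k (uc α V '' {x | x.1 ≠ n}), algebraMap _ (UP V k) z = uc α V ⟨m, i⟩ := by
  letI := algUP V k
  exact ⟨⟨uc α V ⟨m, i⟩, IntermediateField.subset_adjoin _ _ ⟨⟨m, i⟩, hm, rfl⟩⟩, rfl⟩

/-! ### The oracle in the ultrapower -/

theorem map_opoly {A B : Type} [CommRing A] [CommRing B] (φ : A →+* B) {m : ℕ} (c : Ix m → A) :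
    MvPolynomial.map φ (opoly c) = opoly fun i => φ (c i) := by
  unfold opoly
  rw [map_sum]
  apply Finset.sum_congr rfl
  intro i _
  rw [map_mul, MvPolynomial.map_C, map_mul, map_mon (MvPolynomial.map φ), map_mon (MvPolynomial.map φ)]
  simp only [MvPolynomial.map_X]
  split_ifs
  · rfl
  · rw [map_zero]

theorem map_fpoly {A B : Type} [CommRing A] [CommRing B] (φ : A →+* B) {m : ℕ} (c : Ix m → A) :
    MvPolynomial.map φ (fpoly c) = fpoly fun i => φ (c i) := by
  unfold fpoly
  rw [map_sum]
  apply Finset.sum_congr rfl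
  intro i _
  rw [map_mul, MvPolynomial.map_C, map_mon (MvPolynomial.map φ)]
  simp only [MvPolynomial.map_X]
  split_ifs
  · rfl
  · rw [map_zero]

theorem rel_opoly (m : ℕ) : Rel V (cl V k) (opoly fun j => uc α V ⟨m, j⟩) fun i => opoly fun j => α i ⟨m, j⟩ :=
  ⟨opoly fun j i => α i ⟨m, j⟩, map_opoly _ _, Filter.Eventually.of_forall fun _ => map_opoly _ _⟩

theorem rel_fpoly (m : ℕ) : Rel V (cl V k) (fpoly fun j => uc α V ⟨m, j⟩) fun i => fpoly fun j => α i ⟨m, j⟩ :=
  ⟨fpoly fun j i => α i ⟨m, j⟩, map_fpoly _ _, Filter.Eventually.of_forall fun _ => map_fpoly _ _⟩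

end

end Pool.Agent.VPI
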