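import Pool.Agent.VPI.ChainJ

/-!
# The third world over every infinite field
-/

set_option autoImplicit false

open Pool.Agent.VPO Pool.Agent.VPN

namespace Pool.Agent.VPI

variable {k : Type} [Field k]

theorem eval_map_hom {R T σ : Type} [CommRing R] [CommRing T] (φ : R →+* T) (a : σ → R) (P : MvPolynomial σ R) :
    MvPolynomial.eval (fun x => φ (a x)) (MvPolynomial.map φ P) = φ (MvPolynomial.eval a P) := by
  induction P using MvPolynomial.induction_on with
  | C c => simp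
  | add p q hp hq => rw [map_add, map_add, hp, hq, map_add, map_add]
  | mul_X p x hp => rw [map_mul, map_mul, hp, map_mul, map_mul, MvPolynomial.map_X, MvPolynomial.eval_X, MvPolynomial.eval_X]

theorem map_es {k k2 : Type} [Field k] [Field k2] (φ : k →+* k2) {n : ℕ} (β : Fin n → Fin 2) (i : Ix n) :
    φ (VPC.es k β i) = VPC.es k2 β i := by
  unfold VPC.es
  split_ifs
  · rw [map_mul, map_sum, map_mon φ]
    simp only [map_mon φ, bp, map_natCast]
    rfl
  · exact map_zero φ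

section

variable {I : Type} {V : Ultrafilter I} (α : I → Co → k)

/-- the first lower bound passes to almost all indices -/
theorem low_L (n : ℕ) (h : ∀ Q : MvPolynomial Co k, ∀ᶠ i in (V : Filter I), PassC n (α i) Q) (r : ℕ)
    (hr : ∀ᶠ i in (V : Filter I), ComputedBy (VPO.orc (α i)) (fpoly (cof (α i) n)) r) : 2 ^ n < 2 * (r + 1) ^ 2 := by
  letI := algUP V k
  have h1 : ComputedBy (VPO.orc (uc α V)) (fpoly (cof (uc α V) n)) r :=
    los_computed (I := I) (V := V) (mk := cl V k) (mkF := cl V k) (fun a b h => cl_eq.2 h) (fun a => rfl)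
      (fun m => m + m) (fun m => by omega) (fun i m => opoly fun j => α i ⟨m, j⟩) (fun m => opoly fun j => uc α V ⟨m, j⟩)
      (fun m => rel_opoly α m) (VPO.orc (uc α V)).vars_bdd (fun i => (VPO.orc (α i)).deg_bdd)
      (VPO.orc (uc α V)).deg_bdd r (fun i => fpoly (cof (α i) n)) _ (rel_fpoly α n) hr
  exact lower (K0 := IntermediateField.adjoin k (uc α V '' {x | x.1 ≠ n})) (fun m hm i => mem_base α n m hm i)
    (indep_up α n h) h1

/-- the second lower bound passes to almost all indices -/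
theorem low_Lapp (n : ℕ) (h : ∀ Q : MvPolynomial Co k, ∀ᶠ i in (V : Filter I), PassC n (α i) Q) (r : ℕ)
    (hr : ∀ᶠ i in (V : Filter I), Lapp (VPO.orc (α i)) (bsum (VPC.hs (cof (α i) n))) = r) : 2 ^ n < 4 * (r + 1) ^ 2 := by
  letI := algUP V k
  letI := algRF V k
  choose F hF1 hF2 using fun i => VPE.exists_Lapp (VPO.orc (α i)) (bsum (VPC.hs (cof (α i) n)))
  choose l hl1 hl2 using hF2
  have hl : ∀ᶠ i in (V : Filter I), Comp (VPO.orc (α i)) r (l i) := by
    filter_upwards [hr] with i hi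
    rw [← hi]
    exact hl1 i
  obtain ⟨lt, h1, h2⟩ := los (I := I) (V := V) (mk := cl V k) (mkF := cl V (RatFunc k)) (fun a b h => cl_eq.2 h)
    (fun a => rfl)
    (fun m => m + m) (fun m => by omega) (fun i m => opoly fun j => α i ⟨m, j⟩) (fun m => opoly fun j => uc α V ⟨m, j⟩)
    (fun m => rel_opoly α m) (VPO.orc (uc α V)).vars_bdd (fun i => (VPO.orc (α i)).deg_bdd)
    (VPO.orc (uc α V)).deg_bdd r l hl
  obtain ⟨qt, h3, h4⟩ := avail_lift (mkF := cl V (RatFunc k)) h2 (Filter.Eventually.of_forall hl2)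
  refine lowC (K0 := IntermediateField.adjoin k (uc α V '' {x | x.1 ≠ n})) (placeUP V k)
    (fun m hm i => mem_base α n m hm i) (indep_up α n h) (F := MvPolynomial.map (cl V (RatFunc k)) qt)
    (g := bsum (VPC.hs (cof (uc α V) n))) ?_ (fun β => VPC.eval_bsum_hs _ β) ⟨_, h1, h3⟩
  intro β
  refine ⟨fun i => MvPolynomial.eval (bp (RatFunc k) β) (MvPolynomial.map (Pi.evalRingHom (fun _ => RatFunc k) i) qt),
    fun i => MvPolynomial.eval (bp k β) (bsum (VPC.hs (cof (α i) n))), ?_, ?_, ?_⟩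
  · have e1 : (fun i => MvPolynomial.eval (bp (RatFunc k) β) (MvPolynomial.map (Pi.evalRingHom (fun _ => RatFunc k) i) qt)) =
        MvPolynomial.eval (fun j => (fun _ : I => bp (RatFunc k) β j)) qt := by
      funext i
      exact eval_map_hom (Pi.evalRingHom (fun _ => RatFunc k) i) (fun j => (fun _ : I => bp (RatFunc k) β j)) qt
    rw [e1, ← eval_map_hom]
    congr 2
  · rw [VPC.eval_bsum_hs]
    have e1 : (fun i => MvPolynomial.eval (bp k β) (bsum (VPC.hs (cof (α i) n)))) =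
        ∑ j, (fun _ : I => VPC.es k β j) * fun i => α i ⟨n, j⟩ := by
      funext i
      rw [VPC.eval_bsum_hs, Finset.sum_apply]
      rfl
    rw [e1, map_sum]
    apply Finset.sum_congr rfl
    intro j _
    rw [map_mul]
    congr 1
    exact map_es ((cl V k).comp (Pi.constRingHom I k)) β j
  · filter_upwards [h4] with i hi
    rw [hi]
    exact VPC.val_eval (hF1 i) β

end

/-- finitely many tests suffice for the two lower bounds at `n` -/
theorem exists_testsC (k : Type) [Field k] (n : ℕ) : ∃ S : Finset (MvPolynomial Co k), ∀ α : Co → k,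
    (∀ Q ∈ S, PassC n α Q) → 2 ^ n < 2 * (L (VPO.orc α) (fpoly (cof α n)) + 1) ^ 2 ∧
      2 ^ n < 4 * (Lapp (VPO.orc α) (bsum (VPC.hs (cof α n))) + 1) ^ 2 := by
  classical
  by_contra hcon
  push Not at hcon
  choose α h1 h2 using hcon
  let V : Ultrafilter (Finset (MvPolynomial Co k)) := Ultrafilter.of Filter.atTop
  have hV : ∀ Q : MvPolynomial Co k, ∀ᶠ S in (V : Filter (Finset (MvPolynomial Co k))), PassC n (α S) Q := by
    intro Q
    refine Filter.Eventually.filter_mono (Ultrafilter.of_le Filter.atTop) ?_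
    filter_upwards [Filter.eventually_ge_atTop ({Q} : Finset (MvPolynomial Co k))] with S hS
    exact h1 S Q (hS (Finset.mem_singleton_self Q))
  have h3 : ∀ᶠ S in (V : Filter (Finset (MvPolynomial Co k))),
      (2 * (L (VPO.orc (α S)) (fpoly (cof (α S) n)) + 1) ^ 2 ≤ 2 ^ n) ∨
      (4 * (Lapp (VPO.orc (α S)) (bsum (VPC.hs (cof (α S) n))) + 1) ^ 2 ≤ 2 ^ n) := by
    refine Filter.Eventually.of_forall fun S => ?_
    by_cases h : 2 ^ n < 2 * (L (VPO.orc (α S)) (fpoly (cof (α S) n)) + 1) ^ 2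
    · exact Or.inr (h2 S h)
    · exact Or.inl (not_lt.1 h)
  rcases Ultrafilter.eventually_or.1 h3 with h | h
  · have h4 : ∀ᶠ S in (V : Filter (Finset (MvPolynomial Co k))), ∃ r : Fin (2 ^ n + 1), (r : ℕ) =
        L (VPO.orc (α S)) (fpoly (cof (α S) n)) := by
      filter_upwards [h] with S hS
      exact ⟨⟨L (VPO.orc (α S)) (fpoly (cof (α S) n)), by nlinarith⟩, rfl⟩
    obtain ⟨r, hr⟩ := Ultrafilter.eventually_exists_iff.1 h4
    obtain ⟨S0, hS0, hS1⟩ := (hr.and h).exists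
    rw [← hS0] at hS1
    refine absurd (low_L α n hV r ?_) (not_lt.2 hS1)
    filter_upwards [hr] with S hS
    have h6 := computedBy_L (VPO.orc (α S)) (fpoly (cof (α S) n))
    rw [← hS] at h6
    exact h6
  · have h4 : ∀ᶠ S in (V : Filter (Finset (MvPolynomial Co k))), ∃ r : Fin (2 ^ n + 1), (r : ℕ) =
        Lapp (VPO.orc (α S)) (bsum (VPC.hs (cof (α S) n))) := by
      filter_upwards [h] with S hS
      exact ⟨⟨Lapp (VPO.orc (α S)) (bsum (VPC.hs (cof (α S) n))), by nlinarith⟩, rfl⟩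
    obtain ⟨r, hr⟩ := Ultrafilter.eventually_exists_iff.1 h4
    obtain ⟨S0, hS0, hS1⟩ := (hr.and h).exists
    rw [← hS0] at hS1
    refine absurd (low_Lapp α n hV r ?_) (not_lt.2 hS1)
    filter_upwards [hr] with S hS
    exact hS.symm

theorem thirdI (k : Type) [Field k] [Infinite k] :
    ∃ G f g : PFamily k,
      (∀ n, G.vars n = 2 * n ∧ (G.poly n).totalDegree ≤ 3 * n ∧ f.vars n = n ∧ (f.poly n).totalDegree ≤ n ∧
        g.vars n = n ∧ (g.poly n).totalDegree ≤ n) ∧
      (∀ n, Lapp G (f.poly n) ≤ 2 * n + 2) ∧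
      (∀ n, 2 ^ n < 2 * (L G (f.poly n) + 1) ^ 2) ∧
      g ∈ VNP G ∧
      (∀ n, 2 ^ n < 4 * (Lapp G (g.poly n) + 1) ^ 2) ∧
      VP G ⊂ VPbar G ∧ g ∉ VPbar G := by
  choose S hS using exists_testsC k
  obtain ⟨α, hα⟩ := exists_seqC S
  have hL : ∀ n, 2 ^ n < 2 * (L (VPO.orc α) ((VPO.fam α).poly n) + 1) ^ 2 := fun n => (hS n α (hα n)).1
  have hLa : ∀ n, 2 ^ n < 4 * (Lapp (VPO.orc α) ((VPC.gam α).poly n) + 1) ^ 2 := fun n => (hS n α (hα n)).2
  refine ⟨VPO.orc α, VPO.fam α, VPC.gam α, fun n => ⟨?_, ?_, rfl, ?_, rfl, ?_⟩, fun n => upper α n, hL,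
    VPC.gam_mem_VNP α, hLa, ?_, ?_⟩
  · show n + n = 2 * n
    omega
  · exact totalDegree_opoly_le _
  · exact totalDegree_fpoly_le _
  · exact VPC.totalDegree_bsum_hs_le _
  · refine Set.ssubset_iff_subset_ne.2 ⟨VP_subset_VPbar _, ?_⟩
    intro h
    have h1 : VPO.fam α ∈ VPbar (VPO.orc α) := by
      refine ⟨2 * Polynomial.X + 2, fun n => ?_⟩
      have := upper α n
      simpa using this
    rw [← h] at h1
    obtain ⟨p, hp⟩ := h1
    obtain ⟨n, hn⟩ := exists_lt_two_pow p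
    have h2 := hL n
    have h3 := hp n
    have h4 : 2 * (L (VPO.orc α) ((VPO.fam α).poly n) + 1) ^ 2 ≤ 2 * (p.eval n + 1) ^ 2 :=
      Nat.mul_le_mul_left _ (Nat.pow_le_pow_left (Nat.succ_le_succ h3) 2)
    omega
  · rintro ⟨p, hp⟩
    obtain ⟨n, hn⟩ := exists_lt_two_pow (2 * p + 1)
    have h1 := hLa n
    have h2 := hp n
    have h3 : 4 * (Lapp (VPO.orc α) ((VPC.gam α).poly n) + 1) ^ 2 ≤ 4 * (p.eval n + 1) ^ 2 :=
      Nat.mul_le_mul_left _ (Nat.pow_le_pow_left (Nat.succ_le_succ h2) 2)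
    have h4 : (2 * p + 1).eval n = 2 * p.eval n + 1 := by simp
    rw [h4] at hn
    nlinarith

end Pool.Agent.VPI
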