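import Pool.Agent.VPN.FinalC
import Pool.Agent.VPI.RecI
import Pool.Agent.VPP.SumP

/-!
# The oracle with `VP ≠ VNP` and with the closure of `VP` equal to the closure of `VNP`, over every infinite field
-/

set_option autoImplicit false

open MvPolynomial Pool.Agent.VPO Pool.Agent.VPN

namespace Pool.Agent.VPI

theorem mainI (k : Type) [Field k] [Infinite k] :
    ∃ G f : PFamily k,
      (∀ n, G.vars n = NV n ∧ (G.poly n).totalDegree ≤ NV n ∧ f.vars n = n ∧ (f.poly n).totalDegree ≤ n) ∧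
      f ∈ VNP G ∧
      (∀ n, 2 ^ n < 2 * (L G (f.poly n) + 1) ^ 2) ∧
      (∀ (s n : ℕ) (g : MvPolynomial (Fin n) k), n ≤ s → g.totalDegree ≤ s → LNapp G g ≤ s →
        Lapp G g ≤ NV s + 2) ∧
      (PerfectField k → ∀ (s n : ℕ) (g : MvPolynomial (Fin n) k), n ≤ s → g.totalDegree ≤ s → LNapp G g ≤ s →
        ∃ h : MvPolynomial (Fin (n + (s + s))) k, h.totalDegree ≤ 2 * NV s ∧ L G h ≤ 6 * NV s + 2 ∧
          g = bsum h) := by
  choose S hS1 hS2 using exists_tests k
  have hsize : ∀ (α : (Σ m, Ind m) → k) (u : ∀ m, (Fin (W m) → Fin (W m + 1)) → k) (n : ℕ),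
      (orc α u).vars n = NV n ∧ ((orc α u).poly n).totalDegree ≤ NV n ∧ (fam α).vars n = n ∧
        ((fam α).poly n).totalDegree ≤ n := fun α u n =>
    ⟨rfl, (totalDegree_rename_le _ _).trans (totalDegree_qpoly_le _), rfl, totalDegree_bsum_hpoly_le α n⟩
  by_cases hchar : PerfectField k
  · obtain ⟨α, u, hu, hpass⟩ := exists_seq_tests S hS1 (fun m G v => CovC m G v) exists_covC covC_congr
    refine ⟨orc α u, fam α, hsize α u, fam_mem_VNP α u, fun n => hS2 n α u (hpass n), ?_, fun _ => ?_⟩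
    · intro s n g hn hg hL
      obtain ⟨a, ha, hga⟩ := hu s n g hn hg hL
      exact Lapp_le_of_cov g hn a ha hga
    · exact VPP.sum_of_cov_p hu
  · obtain ⟨α, u, hu, hpass⟩ := exists_seq_tests S hS1 (fun m G v => CovN m G v) exists_covN covN_congr
    refine ⟨orc α u, fam α, hsize α u, fam_mem_VNP α u, fun n => hS2 n α u (hpass n), ?_, fun h => absurd h hchar⟩
    intro s n g hn hg hL
    exact Lapp_le_of_LNapp α u hu g hn hg hL

end Pool.Agent.VPI
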