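import Pool.Agent.VPO.Defs

/-!
# [VPI-LOS] programs over an ultraproduct

`I → F` is the product ring, `mkF : (I → F) →+* F2` a ring homomorphism to a field which identifies families that are
equal almost everywhere (with respect to the ultrafilter `V`). `Rel V mkF P2 P`: the polynomial `P2` over `F2` is the
class of the family `P i` of polynomials over `F`: there is ONE polynomial over `I → F` (so of bounded degree) which is
mapped to `P2` and, for almost all `i`, to `P i`.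

`los`: induction on `r` (strong), generalizing `l`. Inversion of `Comp` at almost every `i`: `nil`, `add`, `sub`, `mul` or
`oracle m`; an ultrafilter decides a finite disjunction (`Ultrafilter.eventually_or`), also over the `m ≤ r` for the
oracle gates (`m ≤ N m`). `Avail (l i) (q i)` for almost all `i` and `l i = lt.map ev_i` give `qt` over `I → F` with
`Avail (lt.map mkF) (map mkF qt)` and `q i = map ev_i qt`: the constant case by the family of the constants, the variable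
case since `Fin n` is finite, the list case since `lt` is finite. In the oracle gate, for `Pt` the lift of `p2 m` and `at v`
the lifts of the arguments, the new element is `eval₂ (C.comp ι) at Pt`, with `ι : (I → k) →+* (I → F)` the map
`algebraMap k F` in every coordinate.
-/

set_option autoImplicit false

open MvPolynomial Pool.Agent.VPO

namespace Pool.Agent.VPI

/-- `P2` is the class of the family `P` -/
def Rel {I : Type} (V : Ultrafilter I) {F F2 : Type} [Field F] [Field F2] (mk : (I → F) →+* F2) {σ : Type}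
    (P2 : MvPolynomial σ F2) (P : I → MvPolynomial σ F) : Prop :=
  ∃ Pt : MvPolynomial σ (I → F), map mk Pt = P2 ∧ ∀ᶠ i in (V : Filter I), map (Pi.evalRingHom (fun _ => F) i) Pt = P i

variable {I : Type} {V : Ultrafilter I} {k F k2 F2 : Type} [Field k] [Field F] [Field k2] [Field F2] [Algebra k F]
  [Algebra k2 F2] {mk : (I → k) →+* k2} {mkF : (I → F) →+* F2}

theorem rel_unique (hmk : ∀ a b : I → F, (∀ᶠ i in (V : Filter I), a i = b i) → mkF a = mkF b) {σ : Type}
    {P2 Q2 : MvPolynomial σ F2} {P : I → MvPolynomial σ F} (h : Rel V mkF P2 P) (h' : Rel V mkF Q2 P) : P2 = Q2 := by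
  obtain ⟨Pt, hP, hP'⟩ := h
  obtain ⟨Qt, hQ, hQ'⟩ := h'
  rw [← hP, ← hQ]
  ext s
  rw [coeff_map, coeff_map]
  apply hmk
  filter_upwards [hP', hQ'] with i h1 h2
  have h3 : coeff s (map (Pi.evalRingHom (fun _ => F) i) Pt) = coeff s (map (Pi.evalRingHom (fun _ => F) i) Qt) := by
    rw [h1, h2]
  rwa [coeff_map, coeff_map] at h3

/-- an ultrafilter decides a finite disjunction -/
theorem exists_mem_eventually {α : Type} (s : List α) {p : α → I → Prop}
    (h : ∀ᶠ i in (V : Filter I), ∃ a ∈ s, p a i) : ∃ a ∈ s, ∀ᶠ i in (V : Filter I), p a i := by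
  induction s with
  | nil =>
    obtain ⟨i, hi⟩ := h.exists
    obtain ⟨a, ha, -⟩ := hi
    exact absurd ha (by simp)
  | cons b s ih =>
    have h1 : ∀ᶠ i in (V : Filter I), p b i ∨ ∃ a ∈ s, p a i := by
      filter_upwards [h] with i hi
      obtain ⟨a, ha, hp⟩ := hi
      rcases List.mem_cons.1 ha with rfl | ha
      · exact Or.inl hp
      · exact Or.inr ⟨a, ha, hp⟩
    rcases Ultrafilter.eventually_or.1 h1 with h2 | h2
    · exact ⟨b, by simp, h2⟩
    · obtain ⟨a, ha, hp⟩ := ih h2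
      exact ⟨a, List.mem_cons_of_mem _ ha, hp⟩

/-- available elements are lifted -/
theorem avail_lift {n : ℕ} {l : I → List (MvPolynomial (Fin n) F)} {lt : List (MvPolynomial (Fin n) (I → F))}
    (hlt : ∀ᶠ i in (V : Filter I), lt.map (map (Pi.evalRingHom (fun _ => F) i)) = l i)
    {q : I → MvPolynomial (Fin n) F} (hq : ∀ᶠ i in (V : Filter I), Avail (l i) (q i)) :
    ∃ qt : MvPolynomial (Fin n) (I → F), Avail (lt.map (map mkF)) (map mkF qt) ∧
      ∀ᶠ i in (V : Filter I), map (Pi.evalRingHom (fun _ => F) i) qt = q i := by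
  rcases Ultrafilter.eventually_or.1 hq with h | h
  · refine ⟨C fun i => coeff 0 (q i), Or.inl ⟨mkF fun i => coeff 0 (q i), map_C _ _⟩, ?_⟩
    filter_upwards [h] with i hi
    obtain ⟨c, hc⟩ := hi
    rw [map_C, hc]
    simp [hc]
  · rcases Ultrafilter.eventually_or.1 h with h | h
    · have h1 : ∀ᶠ i in (V : Filter I), ∃ j ∈ (Finset.univ : Finset (Fin n)).toList, q i = X j := by
        filter_upwards [h] with i hi
        obtain ⟨j, hj⟩ := hi
        exact ⟨j, by simp, hj⟩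
      obtain ⟨j, -, hj⟩ := exists_mem_eventually _ h1
      refine ⟨X j, Or.inr (Or.inl ⟨j, map_X _ _⟩), ?_⟩
      filter_upwards [hj] with i hi
      rw [map_X, hi]
    · have h1 : ∀ᶠ i in (V : Filter I), ∃ g ∈ lt, map (Pi.evalRingHom (fun _ => F) i) g = q i := by
        filter_upwards [h, hlt] with i hi hi2
        rw [← hi2] at hi
        obtain ⟨g, hg, hg2⟩ := List.mem_map.1 hi
        exact ⟨g, hg, hg2⟩
      obtain ⟨g, hg, hg2⟩ := exists_mem_eventually _ h1
      exact ⟨g, Or.inr (Or.inr (List.mem_map.2 ⟨g, hg, rfl⟩)), hg2⟩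

/-- inversion of `Comp` -/
theorem comp_cases {G : PFamily k} {n r : ℕ} {l : List (MvPolynomial (Fin n) F)} (h : Comp G r l) :
    (r = 0 ∧ l = []) ∨
    (∃ x : List (MvPolynomial (Fin n) F) × MvPolynomial (Fin n) F × MvPolynomial (Fin n) F, 1 ≤ r ∧
      Comp G (r - 1) x.1 ∧ Avail x.1 x.2.1 ∧ Avail x.1 x.2.2 ∧ l = (x.2.1 + x.2.2) :: x.1) ∨
    (∃ x : List (MvPolynomial (Fin n) F) × MvPolynomial (Fin n) F × MvPolynomial (Fin n) F, 1 ≤ r ∧
      Comp G (r - 1) x.1 ∧ Avail x.1 x.2.1 ∧ Avail x.1 x.2.2 ∧ l = (x.2.1 - x.2.2) :: x.1) ∨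
    (∃ x : List (MvPolynomial (Fin n) F) × MvPolynomial (Fin n) F × MvPolynomial (Fin n) F, 1 ≤ r ∧
      Comp G (r - 1) x.1 ∧ Avail x.1 x.2.1 ∧ Avail x.1 x.2.2 ∧ l = (x.2.1 * x.2.2) :: x.1) ∨
    (∃ m, G.vars m + 1 ≤ r ∧ ∃ x : List (MvPolynomial (Fin n) F) × (Fin (G.vars m) → MvPolynomial (Fin n) F),
      Comp G (r - (G.vars m + 1)) x.1 ∧ (∀ i, Avail x.1 (x.2 i)) ∧ l = aeval x.2 (G.poly m) :: x.1) := by
  cases h with
  | nil => exact Or.inl ⟨rfl, rfl⟩
  | @add r l p q h1 h2 h3 => exact Or.inr (Or.inl ⟨(l, p, q), by omega, h1, h2, h3, rfl⟩)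
  | @sub r l p q h1 h2 h3 => exact Or.inr (Or.inr (Or.inl ⟨(l, p, q), by omega, h1, h2, h3, rfl⟩))
  | @mul r l p q h1 h2 h3 => exact Or.inr (Or.inr (Or.inr (Or.inl ⟨(l, p, q), by omega, h1, h2, h3, rfl⟩)))
  | @oracle r l m a h1 h2 =>
    refine Or.inr (Or.inr (Or.inr (Or.inr ⟨m, by omega, (l, a), ?_, h2, rfl⟩)))
    rwa [Nat.add_sub_cancel]

theorem los (hmk : ∀ a b : I → F, (∀ᶠ i in (V : Filter I), a i = b i) → mkF a = mkF b)
    (halg : ∀ a : I → k, algebraMap k2 F2 (mk a) = mkF fun i => algebraMap k F (a i))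
    (N : ℕ → ℕ) (hN : ∀ m, m ≤ N m) (p : I → ∀ m, MvPolynomial (Fin (N m)) k) (p2 : ∀ m, MvPolynomial (Fin (N m)) k2)
    (hp : ∀ m, Rel V mk (p2 m) fun i => p i m) (hv : PBounded N)
    (hd : ∀ i, PBounded fun m => (p i m).totalDegree) (hd2 : PBounded fun m => (p2 m).totalDegree)
    {n : ℕ} (r : ℕ) (l : I → List (MvPolynomial (Fin n) F))
    (hl : ∀ᶠ i in (V : Filter I), Comp (⟨N, p i, hv, hd i⟩ : PFamily k) r (l i)) :
    ∃ lt : List (MvPolynomial (Fin n) (I → F)),
      Comp (⟨N, p2, hv, hd2⟩ : PFamily k2) r (lt.map (map mkF)) ∧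
      ∀ᶠ i in (V : Filter I), lt.map (map (Pi.evalRingHom (fun _ => F) i)) = l i := by
  induction r using Nat.strong_induction_on generalizing l with
  | _ r ih =>
  have hc := hl.mono fun i hi => comp_cases hi
  -- the binary gates
  have bin : ∀ (op : ∀ {R : Type} [CommRing R], MvPolynomial (Fin n) R → MvPolynomial (Fin n) R →
        MvPolynomial (Fin n) R)
      (_ : ∀ {R S : Type} [CommRing R] [CommRing S] (f : R →+* S) (a b : MvPolynomial (Fin n) R),
        map f (op a b) = op (map f a) (map f b))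
      (_ : ∀ (l' : List (MvPolynomial (Fin n) F2)) (a b : MvPolynomial (Fin n) F2),
        Comp (⟨N, p2, hv, hd2⟩ : PFamily k2) (r - 1) l' → Avail l' a → Avail l' b → 1 ≤ r →
        Comp (⟨N, p2, hv, hd2⟩ : PFamily k2) r (op a b :: l')),
      (∀ᶠ i in (V : Filter I), ∃ x : List (MvPolynomial (Fin n) F) × MvPolynomial (Fin n) F ×
        MvPolynomial (Fin n) F, 1 ≤ r ∧ Comp (⟨N, p i, hv, hd i⟩ : PFamily k) (r - 1) x.1 ∧
        Avail x.1 x.2.1 ∧ Avail x.1 x.2.2 ∧ l i = op x.2.1 x.2.2 :: x.1) →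
      ∃ lt : List (MvPolynomial (Fin n) (I → F)),
        Comp (⟨N, p2, hv, hd2⟩ : PFamily k2) r (lt.map (map mkF)) ∧
        ∀ᶠ i in (V : Filter I), lt.map (map (Pi.evalRingHom (fun _ => F) i)) = l i := by
    intro op hop hcomp hx
    obtain ⟨x, hx⟩ := Filter.skolem.1 hx
    obtain ⟨i0, hi0⟩ := hx.exists
    have hr : 1 ≤ r := hi0.1
    obtain ⟨lt, h1, h2⟩ := ih (r - 1) (by omega) (fun i => (x i).1) (hx.mono fun i hi => hi.2.1)
    obtain ⟨pt, hp1, hp2⟩ := avail_lift (mkF := mkF) h2 (hx.mono fun i hi => hi.2.2.1)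
    obtain ⟨qt, hq1, hq2⟩ := avail_lift (mkF := mkF) h2 (hx.mono fun i hi => hi.2.2.2.1)
    refine ⟨op pt qt :: lt, ?_, ?_⟩
    · rw [List.map_cons, hop]
      exact hcomp _ _ _ h1 hp1 hq1 hr
    · filter_upwards [hx, h2, hp2, hq2] with i hi1 hi2 hi3 hi4
      rw [List.map_cons, hop, hi2, hi3, hi4, hi1.2.2.2.2]
  rcases Ultrafilter.eventually_or.1 hc with h | h
  · obtain ⟨i0, hi0⟩ := h.exists
    have hr : r = 0 := hi0.1
    subst hr
    refine ⟨[], Comp.nil, ?_⟩
    filter_upwards [h] with i hi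
    rw [hi.2]
    rfl
  rcases Ultrafilter.eventually_or.1 h with h | h
  · refine bin (fun {R} _ a b => a + b) (fun f a b => map_add _ _ _) ?_ h
    intro l' a b h1 h2 h3 hr
    have := Comp.add h1 h2 h3
    rwa [Nat.sub_add_cancel hr] at this
  rcases Ultrafilter.eventually_or.1 h with h | h
  · refine bin (fun {R} _ a b => a - b) (fun f a b => map_sub _ _ _) ?_ h
    intro l' a b h1 h2 h3 hr
    have := Comp.sub h1 h2 h3
    rwa [Nat.sub_add_cancel hr] at this
  rcases Ultrafilter.eventually_or.1 h with h | h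
  · refine bin (fun {R} _ a b => a * b) (fun f a b => map_mul _ _ _) ?_ h
    intro l' a b h1 h2 h3 hr
    have := Comp.mul h1 h2 h3
    rwa [Nat.sub_add_cancel hr] at this
  -- the oracle gates
  have h1 : ∀ᶠ i in (V : Filter I), ∃ m ∈ List.range r, N m + 1 ≤ r ∧
      ∃ x : List (MvPolynomial (Fin n) F) × (Fin (N m) → MvPolynomial (Fin n) F),
      Comp (⟨N, p i, hv, hd i⟩ : PFamily k) (r - (N m + 1)) x.1 ∧ (∀ j, Avail x.1 (x.2 j)) ∧
        l i = aeval x.2 (p i m) :: x.1 := by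
    filter_upwards [h] with i hi
    obtain ⟨m, hm, x, hx1, hx2, hx3⟩ := hi
    change N m + 1 ≤ r at hm
    refine ⟨m, ?_, hm, x, hx1, hx2, hx3⟩
    rw [List.mem_range]
    have := hN m
    omega
  obtain ⟨m, -, hm⟩ := exists_mem_eventually _ h1
  obtain ⟨i0, hi0⟩ := hm.exists
  have hr : N m + 1 ≤ r := hi0.1
  obtain ⟨x, hx⟩ := Filter.skolem.1 (hm.mono fun i hi => hi.2)
  obtain ⟨lt, h2, h3⟩ := ih (r - (N m + 1)) (by omega) (fun i => (x i).1) (hx.mono fun i hi => hi.1)
  have h4 : ∀ j : Fin (N m), ∃ qt : MvPolynomial (Fin n) (I → F), Avail (lt.map (map mkF)) (map mkF qt) ∧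
      ∀ᶠ i in (V : Filter I), map (Pi.evalRingHom (fun _ => F) i) qt = (x i).2 j :=
    fun j => avail_lift (mkF := mkF) h3 (hx.mono fun i hi => hi.2.1 j)
  choose at' hat1 hat2 using h4
  obtain ⟨Pt, hPt1, hPt2⟩ := hp m
  let ι : (I → k) →+* (I → F) := RingHom.pi fun i => (algebraMap k F).comp (Pi.evalRingHom (fun _ => k) i)
  refine ⟨eval₂ (C.comp ι) at' Pt :: lt, ?_, ?_⟩
  · have e1 : map mkF (eval₂ (C.comp ι) at' Pt) = aeval (fun j => map mkF (at' j)) (p2 m) := by
      rw [← hPt1, aeval_def, eval₂_map, eval₂_comp_left (map mkF)]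
      congr 1
      ext a
      · simp only [RingHom.comp_apply, map_C]
        rw [MvPolynomial.algebraMap_apply, halg]
        rfl
    rw [List.map_cons, e1]
    have := Comp.oracle (G := (⟨N, p2, hv, hd2⟩ : PFamily k2)) m (fun j => map mkF (at' j)) h2 hat1
    have e2 : r - (N m + 1) + ((⟨N, p2, hv, hd2⟩ : PFamily k2).vars m + 1) = r := Nat.sub_add_cancel hr
    rw [e2] at this
    exact this
  · filter_upwards [hx, h3, hPt2, Filter.eventually_all.2 hat2] with i hi1 hi2 hi3 hi4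
    have e1 : map (Pi.evalRingHom (fun _ => F) i) (eval₂ (C.comp ι) at' Pt) = aeval (x i).2 (p i m) := by
      rw [← hi3, aeval_def, eval₂_map, eval₂_comp_left (map (Pi.evalRingHom (fun _ => F) i))]
      congr 1
      · ext a
        simp only [RingHom.comp_apply, map_C]
        rw [MvPolynomial.algebraMap_apply]
        rfl
      · funext j
        exact hi4 j
    rw [List.map_cons, e1, hi2, hi1.2.2]

theorem los_computed (hmk : ∀ a b : I → F, (∀ᶠ i in (V : Filter I), a i = b i) → mkF a = mkF b)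
    (halg : ∀ a : I → k, algebraMap k2 F2 (mk a) = mkF fun i => algebraMap k F (a i))
    (N : ℕ → ℕ) (hN : ∀ m, m ≤ N m) (p : I → ∀ m, MvPolynomial (Fin (N m)) k) (p2 : ∀ m, MvPolynomial (Fin (N m)) k2)
    (hp : ∀ m, Rel V mk (p2 m) fun i => p i m) (hv : PBounded N)
    (hd : ∀ i, PBounded fun m => (p i m).totalDegree) (hd2 : PBounded fun m => (p2 m).totalDegree)
    {n : ℕ} (r : ℕ) (f : I → MvPolynomial (Fin n) F) (f2 : MvPolynomial (Fin n) F2) (hf : Rel V mkF f2 f)
    (hl : ∀ᶠ i in (V : Filter I), ComputedBy (⟨N, p i, hv, hd i⟩ : PFamily k) (f i) r) :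
    ComputedBy (⟨N, p2, hv, hd2⟩ : PFamily k2) f2 r := by
  obtain ⟨l, hl⟩ := Filter.skolem.1 hl
  obtain ⟨lt, h1, h2⟩ := los hmk halg N hN p p2 hp hv hd hd2 r l (hl.mono fun i hi => hi.1)
  obtain ⟨ft, h3, h4⟩ := avail_lift (mkF := mkF) h2 (hl.mono fun i hi => hi.2)
  have h5 : f2 = map mkF ft := rel_unique hmk hf ⟨ft, rfl, h4⟩
  rw [h5]
  exact ⟨_, h1, h3⟩

end Pool.Agent.VPI
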