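import Pool.Agent.VPI.Place

/-!
# Places: sums, the largest of finitely many elements, algebraic independence
-/

set_option autoImplicit false

open Finset

namespace Pool.Agent.VPI

variable {k K : Type} [Field k] [Field K] [Algebra k K] (V : Place k K)

theorem val_sum {ι : Type} (s : Finset ι) (x : ι → K) (c : ι → k)
    (h : ∀ i ∈ s, V.val (x i) (c i)) : V.val (∑ i ∈ s, x i) (∑ i ∈ s, c i) := by
  classical
  induction s using Finset.induction_on with
  | empty =>
    have h1 := V.const (0 : k)
    rw [map_zero] at h1
    simpa using h1
  | insert a s ha ih =>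
    rw [sum_insert ha, sum_insert ha]
    exact V.add (h a (mem_insert_self _ _)) (ih fun i hi => h i (mem_insert_of_mem hi))

/-- among finitely many elements, not all `0`, there is one such that all quotients by it are finite -/
theorem exists_max {ι : Type} (s : Finset ι) (x : ι → K) (h : ∃ i ∈ s, x i ≠ 0) :
    ∃ i0 ∈ s, x i0 ≠ 0 ∧ ∀ i ∈ s, ∃ c : k, V.val (x i / x i0) c := by
  classical
  have h1 : V.val (1 : K) (1 : k) := by
    have h1 := V.const (1 : k)
    rwa [map_one] at h1
  have h0 : V.val (0 : K) (0 : k) := by
    have h1 := V.const (0 : k)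
    rwa [map_zero] at h1
  induction s using Finset.induction_on with
  | empty =>
    obtain ⟨i, hi, _⟩ := h
    exact absurd hi (notMem_empty _)
  | insert a s ha ih =>
    by_cases hs : ∃ i ∈ s, x i ≠ 0
    · obtain ⟨i0, hi0, hne, hi⟩ := ih hs
      rcases V.total (x a) (x i0) hne with h2 | ⟨h2, c, h3⟩
      · refine ⟨i0, mem_insert_of_mem hi0, hne, fun i hi' => ?_⟩
        rcases mem_insert.1 hi' with rfl | hi'
        · exact h2
        · exact hi i hi'
      · refine ⟨a, mem_insert_self _ _, h2, fun i hi' => ?_⟩
        rcases mem_insert.1 hi' with rfl | hi'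
        · exact ⟨1, by rw [div_self h2]; exact h1⟩
        · obtain ⟨c', h4⟩ := hi i hi'
          refine ⟨c' * c, ?_⟩
          have h5 : x i / x a = (x i / x i0) * (x i0 / x a) := by
            field_simp
          rw [h5]
          exact V.mul h4 h3
    · push Not at hs
      obtain ⟨i, hi, hne⟩ := h
      rcases mem_insert.1 hi with rfl | hi
      · refine ⟨i, mem_insert_self _ _, hne, fun j hj => ?_⟩
        rcases mem_insert.1 hj with rfl | hj
        · exact ⟨1, by rw [div_self hne]; exact h1⟩
        · exact ⟨0, by rw [hs j hj, zero_div]; exact h0⟩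
      · exact absurd (hs i hi) hne

/-- algebraic independence of the values implies algebraic independence -/
theorem algebraicIndependent_of_value {K0 : Type} [Field K0] [Algebra K0 k] [Algebra K0 K]
    [IsScalarTower K0 k K] {ι : Type} {y : ι → k}
    {φ : ι → K}
    (h : ∀ i, V.val (φ i) (y i)) (hy : AlgebraicIndependent K0 y) : AlgebraicIndependent K0 φ := by
  rw [algebraicIndependent_iff] at hy ⊢
  intro p hp
  apply hy
  have key : V.val (MvPolynomial.aeval φ p) (MvPolynomial.aeval y p) := by
    clear hp
    induction p using MvPolynomial.induction_on with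
    | C a =>
      rw [MvPolynomial.aeval_C, MvPolynomial.aeval_C, IsScalarTower.algebraMap_apply K0 k K]
      exact V.const _
    | add p q hp hq =>
      rw [map_add, map_add]
      exact V.add hp hq
    | mul_X p i hp =>
      rw [map_mul, map_mul, MvPolynomial.aeval_X, MvPolynomial.aeval_X]
      exact V.mul hp (h i)
  rw [hp] at key
  have h0 : V.val (0 : K) (0 : k) := by
    have h1 := V.const (0 : k)
    rwa [map_zero] at h1
  exact V.unique key h0

end Pool.Agent.VPI
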