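import Mathlib

/-!
# Places

A place of the field `K` over the field `k`, as the relation `the value of x is a`: an abstract version of the value at
`0` of a rational function.
-/

set_option autoImplicit false

namespace Pool.Agent.VPI

/-- `val x a`: the element `x` of `K` is finite and its value is `a`. The finite elements form a valuation ring of `K`
which contains `k`, with residue field `k`. -/
structure Place (k K : Type) [Field k] [Field K] [Algebra k K] where
  /-- the value of `x` is `a` -/
  val : K → k → Prop
  const : ∀ c : k, val (algebraMap k K c) c
  add : ∀ {x y : K} {a b : k}, val x a → val y b → val (x + y) (a + b)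
  mul : ∀ {x y : K} {a b : k}, val x a → val y b → val (x * y) (a * b)
  unique : ∀ {x : K} {a b : k}, val x a → val x b → a = b
  total : ∀ x y : K, y ≠ 0 → (∃ c : k, val (x / y) c) ∨ (x ≠ 0 ∧ ∃ c : k, val (y / x) c)

end Pool.Agent.VPI
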